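import Mathlib.Algebra.Order.Archimedean.Basic
import Mathlib.Algebra.Ring.CharZero
import Mathlib.SetTheory.Cardinal.Regular
import Mathlib.Algebra.CharP.Defs
import Mathlib.Algebra.Notation.Lemmas
import Mathlib.Topology.Sheaves.Presheaf
import Mathlib.Tactic.Monotonicity.Lemmas
import Mathlib.Algebra.Order.Ring.Star
import Mathlib.Combinatorics.Matroid.Basic
import Mathlib.Tactic.Bound
import Mathlib.SetTheory.Cardinal.Continuum
import Mathlib.Order.CompletePartialOrder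
import Mathlib.SetTheory.ZFC.PSet

-- ======== part 0: formerly Pool.Agent.MP_e4c3a7_lc.Basic
section MrgPart0

/-!
Basic notions on a well order `K`: limit points, cofinality bounds, recursive choice,
closure points.
-/

open Cardinal Set

namespace Pool.Agent.MP_e4c3a7_lc

/-- `ℵ_n` for a natural number `n`. -/
noncomputable def al (n : ℕ) : Cardinal.{0} := ℵ_ (n : Ordinal.{0})

/-- `ℵ_ω`. -/
noncomputable def lam : Cardinal.{0} := ℵ_ Ordinal.omega0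

theorem al_succ (n : ℕ) : al (n + 1) = Order.succ (al n) := by
  simp [al]

theorem al_zero : al 0 = ℵ₀ := by simp [al]

theorem aleph0_le_al (n : ℕ) : ℵ₀ ≤ al n := aleph0_le_aleph _

theorem aleph0_le_lam : ℵ₀ ≤ lam := aleph0_le_aleph _

theorem al_mono {m n : ℕ} (h : m ≤ n) : al m ≤ al n := by
  simp [al, h]

theorem al_lt {m n : ℕ} (h : m < n) : al m < al n := by
  simp [al, h]

theorem al_lt_lam (n : ℕ) : al n < lam := by
  simp [al, lam]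

theorem exists_le_al {c : Cardinal.{0}} (h : c < lam) : ∃ n, c ≤ al n := by
  by_contra hn
  push Not at hn
  apply absurd h
  rw [not_lt, lam, aleph_limit Ordinal.isSuccLimit_omega0]
  apply ciSup_le'
  rintro ⟨o, ho⟩
  obtain ⟨n, rfl⟩ := Ordinal.lt_omega0.1 ho
  exact (hn n).le

theorem al_regular (n : ℕ) : (al n).IsRegular := by
  cases n with
  | zero => rw [al_zero]; exact isRegular_aleph0
  | succ n => rw [al_succ]; exact isRegular_succ (aleph0_le_al n)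

theorem lt_al_succ {c : Cardinal.{0}} {n : ℕ} : c < al (n + 1) ↔ c ≤ al n := by
  rw [al_succ, Order.lt_succ_iff]

theorem countable_iff_lt_al_one {α : Type} (s : Set α) : s.Countable ↔ #s < al 1 := by
  rw [lt_al_succ, al_zero, le_aleph0_iff_set_countable]

section Card

variable {α ι : Type}

theorem mk_biUnion_le_of_le {s : Set ι} {t : ι → Set α} {c : Cardinal.{0}} (hc : ℵ₀ ≤ c)
    (hs : #s ≤ c) (ht : ∀ i ∈ s, #(t i) ≤ c) : #(⋃ i ∈ s, t i) ≤ c := by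
  refine (mk_biUnion_le t s).trans ?_
  refine (mul_le_mul' hs (ciSup_le' fun i : s => ht i.1 i.2)).trans ?_
  exact (mul_eq_self hc).le

theorem mk_iUnion_le_of_le {t : ι → Set α} {c : Cardinal.{0}} (hc : ℵ₀ ≤ c)
    (hs : #ι ≤ c) (ht : ∀ i, #(t i) ≤ c) : #(⋃ i, t i) ≤ c := by
  refine (mk_iUnion_le t).trans ?_
  refine (mul_le_mul' hs (ciSup_le' ht)).trans ?_
  exact (mul_eq_self hc).le

theorem mk_union_le_of_le {s t : Set α} {c : Cardinal.{0}} (hc : ℵ₀ ≤ c)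
    (hs : #s ≤ c) (ht : #t ≤ c) : #(s ∪ t : Set α) ≤ c :=
  (mk_union_le s t).trans (add_le_of_le hc hs ht)

end Card

/-- Recursive choice along a well-founded order. -/
theorem rec_choice {I α : Type} [LT I] [WellFoundedLT I] [Nonempty α] (Inv : I → α → Prop)
    (Rel : I → α → I → α → Prop)
    (h : ∀ i (f : I → α), (∀ j < i, Inv j (f j)) → ∃ a, Inv i a ∧ ∀ j < i, Rel j (f j) i a) :
    ∃ f : I → α, (∀ i, Inv i (f i)) ∧ ∀ j i, j < i → Rel j (f j) i (f i) := by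
  classical
  let F : (i : I) → ((j : I) → j < i → α) → α := fun i g =>
    Classical.epsilon fun a => Inv i a ∧ ∀ j (hj : j < i), Rel j (g j hj) i a
  let f : I → α := (wellFounded_lt (α := I)).fix F
  have hf : ∀ i, f i = F i (fun j _ => f j) := fun i => (wellFounded_lt (α := I)).fix_eq F i
  have key : ∀ i, Inv i (f i) ∧ ∀ j < i, Rel j (f j) i (f i) := by
    intro i
    induction i using WellFoundedLT.induction with
    | ind i ih =>
      have := h i f (fun j hj => (ih j hj).1)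
      rw [hf i]
      exact Classical.epsilon_spec this
  exact ⟨f, fun i => (key i).1, fun j i hji => (key i).2 j hji⟩

section Idx

theorem mk_Iio_idx {c : Cardinal.{0}} (i : c.ord.ToType) : #(Iio i) < c := by
  simpa using mk_Iio_lt i (by simp)

variable {I : Type} [LinearOrder I]

theorem bdd_of_small {μ : Cardinal.{0}} (hμ : μ.IsRegular) (hI : μ ≤ #I)
    (hIio : ∀ i : I, #(Iio i) < μ) (S : Set I) (hS : #S < μ) : ∃ b, ∀ x ∈ S, x < b := by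
  by_contra hn
  push Not at hn
  have h1 : (univ : Set I) ⊆ ⋃ x ∈ S, Iic x := by
    intro b _
    obtain ⟨x, hx, hb⟩ := hn b
    exact mem_biUnion hx hb
  have h2 : #(⋃ x ∈ S, Iic x) < μ := by
    rw [card_biUnion_lt_iff_forall_of_isRegular hμ hS]
    intro x _
    rw [← Iio_insert]
    refine (mk_insert_le).trans_lt ?_
    exact add_lt_of_lt hμ.aleph0_le (hIio x) (hμ.nat_lt 1)
  have := (mk_le_mk_of_subset h1).trans_lt h2
  rw [mk_univ] at this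
  exact absurd hI (not_le.2 this)

theorem bdd_toType {μ : Cardinal.{0}} (hμ : μ.IsRegular) (S : Set μ.ord.ToType) (hS : #S < μ) :
    ∃ b, ∀ x ∈ S, x < b :=
  bdd_of_small hμ (mk_ord_toType μ).ge (fun i => mk_Iio_idx i) S hS

end Idx

variable {K : Type} [LinearOrder K]

/-- `β` is a limit point of `C` from below. -/
def LimPt (C : Set K) (β : K) : Prop := (∃ x, x < β) ∧ ∀ x < β, ∃ y ∈ C, x < y ∧ y < β

/-- `β` is a limit element. -/
abbrev IsLim (β : K) : Prop := LimPt univ β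

/-- The cofinality of `β` is at least `μ`. -/
def CofGe (β : K) (μ : Cardinal.{0}) : Prop :=
  ∀ S : Set K, S ⊆ Iio β → #S < μ → ∃ b < β, ∀ x ∈ S, x < b

/-- The cofinality of the limit element `β` is at most `μ`. -/
def CofLe (β : K) (μ : Cardinal.{0}) : Prop := ∃ S : Set K, #S ≤ μ ∧ LimPt S β

theorem LimPt.mono {C D : Set K} {β : K} (h : LimPt C β) (hCD : C ⊆ D) : LimPt D β :=
  ⟨h.1, fun x hx => let ⟨y, hy, h2⟩ := h.2 x hx; ⟨y, hCD hy, h2⟩⟩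

theorem LimPt.isLim {C : Set K} {β : K} (h : LimPt C β) : IsLim β := h.mono (subset_univ _)

theorem LimPt.tail {C D : Set K} {β ε : K} (h : LimPt C β) (hε : ε < β)
    (hCD : ∀ y ∈ C, ε < y → y < β → y ∈ D) : LimPt D β := by
  refine ⟨h.1, fun x hx => ?_⟩
  obtain ⟨y, hy, h1, h2⟩ := h.2 (max x ε) (max_lt hx hε)
  exact ⟨y, hCD y hy ((le_max_right _ _).trans_lt h1) h2, (le_max_left _ _).trans_lt h1, h2⟩

theorem LimPt.inter_Iio {C : Set K} {β γ : K} (h : LimPt C β) (hγ : β ≤ γ) :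
    LimPt (C ∩ Iio γ) β :=
  ⟨h.1, fun x hx => let ⟨y, hy, h1, h2⟩ := h.2 x hx; ⟨y, ⟨hy, h2.trans_le hγ⟩, h1, h2⟩⟩

theorem exists_bound_of_not_limPt {C : Set K} {β : K} (hβ : ∃ x, x < β) (h : ¬ LimPt C β) :
    ∃ s < β, ∀ y ∈ C, y < β → y ≤ s := by
  by_contra hn
  push Not at hn
  exact h ⟨hβ, fun x hx => let ⟨y, hy, h1, h2⟩ := hn x hx; ⟨y, hy, h2, h1⟩⟩

theorem CofGe.mono {β : K} {μ ν : Cardinal.{0}} (h : CofGe β μ) (hν : ν ≤ μ) : CofGe β ν :=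
  fun S hS hc => h S hS (hc.trans_le hν)

theorem CofGe.isLim {β : K} {μ : Cardinal.{0}} (h : CofGe β μ) (hμ : ℵ₀ ≤ μ) : IsLim β := by
  constructor
  · obtain ⟨b, hb, -⟩ := h ∅ (empty_subset _) (by simpa using aleph0_pos.trans_le hμ)
    exact ⟨b, hb⟩
  · intro x hx
    obtain ⟨b, hb, h2⟩ := h {x} (by simpa using hx) (by simpa using one_lt_aleph0.trans_le hμ)
    exact ⟨b, mem_univ _, h2 x rfl, hb⟩

theorem CofGe.not_limPt {β : K} {μ : Cardinal.{0}} (h : CofGe β μ) {S : Set K} (hS : #S < μ) :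
    ¬ LimPt S β := by
  intro hl
  obtain ⟨b, hb, h2⟩ := h (S ∩ Iio β) inter_subset_right
    ((mk_le_mk_of_subset inter_subset_left).trans_lt hS)
  obtain ⟨y, hy, h3, h4⟩ := hl.2 b hb
  exact lt_asymm h3 (h2 y ⟨hy, h4⟩)

theorem CofGe.not_cofLe {β : K} {μ ν : Cardinal.{0}} (h : CofGe β μ) (hν : ν < μ) :
    ¬ CofLe β ν := fun ⟨_, hS, hl⟩ => h.not_limPt (hS.trans_lt hν) hl

/-- A bound for a small family of points below `β`. -/
theorem CofGe.bound {β : K} {μ : Cardinal.{0}} (h : CofGe β μ) {ι : Type} (hι : #ι < μ)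
    (f : ι → K) (hf : ∀ i, f i < β) : ∃ b < β, ∀ i, f i < b := by
  obtain ⟨b, hb, h2⟩ := h (range f) (by rintro _ ⟨i, rfl⟩; exact hf i) (mk_range_le.trans_lt hι)
  exact ⟨b, hb, fun i => h2 _ ⟨i, rfl⟩⟩

/-- Pigeonhole at a point of uncountable cofinality. -/
theorem CofGe.pigeon {β : K} (h : CofGe β (al 1)) {C : Set K} (hC : LimPt C β) (T : ℕ → Set K)
    (hT : ∀ x ∈ C, x < β → ∃ n, x ∈ T n) : ∃ n, LimPt (C ∩ T n) β := by
  by_contra hn
  push Not at hn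
  choose s hs hs2 using fun n => exists_bound_of_not_limPt hC.1 (hn n)
  obtain ⟨b, hb, hb2⟩ := h.bound (ι := ℕ) (by rw [lt_al_succ, al_zero]; simp) s hs
  obtain ⟨y, hy, h1, h2⟩ := hC.2 b hb
  obtain ⟨n, hn⟩ := hT y hy h2
  exact absurd ((hs2 n y ⟨hy, hn⟩ h2).trans_lt ((hb2 n).trans h1)) (lt_irrefl _)

theorem CofLe.small {β : K} {μ : Cardinal.{0}} (h : CofLe β μ) {C : Set K} (hC : LimPt C β) :
    ∃ T ⊆ C ∩ Iio β, #T ≤ μ ∧ LimPt T β := by
  obtain ⟨S, hS, hl⟩ := h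
  have : ∀ x : (S ∩ Iio β : Set K), ∃ y ∈ C, x.1 < y ∧ y < β := fun x => hC.2 x.1 x.2.2
  choose f hf hf1 hf2 using this
  refine ⟨range f, ?_, mk_range_le.trans ((mk_le_mk_of_subset inter_subset_left).trans hS), hC.1,
    fun x hx => ?_⟩
  · rintro _ ⟨x, rfl⟩; exact ⟨hf x, hf2 x⟩
  · obtain ⟨y, hy, h1, h2⟩ := hl.2 x hx
    exact ⟨f ⟨y, hy, h2⟩, ⟨_, rfl⟩, h1.trans (hf1 ⟨y, hy, h2⟩), hf2 _⟩

/-- The closure of a set. -/
def clo (E : Set K) : Set K := E ∪ {β | LimPt E β}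

theorem subset_clo (E : Set K) : E ⊆ clo E := subset_union_left

theorem limPt_clo {E : Set K} {β : K} (h : LimPt (clo E) β) : LimPt E β := by
  refine ⟨h.1, fun x hx => ?_⟩
  obtain ⟨y, hy, h1, h2⟩ := h.2 x hx
  rcases hy with hy | hy
  · exact ⟨y, hy, h1, h2⟩
  · obtain ⟨z, hz, h3, h4⟩ := hy.2 x h1
    exact ⟨z, hz, h3, h4.trans h2⟩

variable [WellFoundedLT K]

theorem exists_least {S : Set K} (h : S.Nonempty) : ∃ m ∈ S, ∀ x ∈ S, m ≤ x := by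
  obtain ⟨m, hm, h2⟩ := (wellFounded_lt (α := K)).has_min S h
  exact ⟨m, hm, fun x hx => not_lt.1 (h2 x hx)⟩

theorem mk_limPt_le (E : Set K) : #{β | LimPt E β} ≤ #E + 1 := by
  classical
  have h : ∀ β : K, ∃ o : Option E, (∀ y : E, o = some y → β ≤ y.1 ∧ ∀ z ∈ E, β ≤ z → y.1 ≤ z) ∧
      (o = none → ∀ z ∈ E, z < β) := by
    intro β
    by_cases hb : (E ∩ Ici β).Nonempty
    · obtain ⟨m, hm, h2⟩ := exists_least hb
      refine ⟨some ⟨m, hm.1⟩, ?_, by simp⟩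
      intro y hy
      obtain rfl : (⟨m, hm.1⟩ : E) = y := by simpa using hy
      exact ⟨hm.2, fun z hz hz2 => h2 z ⟨hz, hz2⟩⟩
    · refine ⟨none, by simp, fun _ z hz => ?_⟩
      by_contra hlt
      exact hb ⟨z, hz, not_lt.1 hlt⟩
  choose f hf1 hf2 using h
  have key : ∀ β β' : K, LimPt E β' → β < β' → f β ≠ f β' := by
    intro β β' hl hlt heq
    obtain ⟨y, hy, h1, h2⟩ := hl.2 β hlt
    cases hfb : f β with
    | none => exact lt_asymm h1 (hf2 β hfb y hy)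
    | some w =>
      have h3 := (hf1 β w hfb).2 y hy h1.le
      have h4 := (hf1 β' w (heq ▸ hfb)).1
      exact absurd (h4.trans h3) (not_le.2 h2)
  rw [← mk_option]
  refine mk_le_of_injective (f := fun β : {β | LimPt E β} => f β.1) ?_
  rintro ⟨β, hβ⟩ ⟨β', hβ'⟩ heq
  rcases lt_trichotomy β β' with h | h | h
  · exact absurd heq (key β β' hβ' h)
  · exact Subtype.ext h
  · exact absurd heq.symm (key β' β hβ h)

theorem mk_limPt_le_of_le {E : Set K} {c : Cardinal.{0}} (hc : ℵ₀ ≤ c) (hE : #E ≤ c) :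
    #{β | LimPt E β} ≤ c :=
  (mk_limPt_le E).trans (add_le_of_le hc hE (one_le_aleph0.trans hc))

theorem mk_clo_le {E : Set K} {c : Cardinal.{0}} (hc : ℵ₀ ≤ c) (hE : #E ≤ c) : #(clo E) ≤ c :=
  mk_union_le_of_le hc hE (mk_limPt_le_of_le hc hE)

/-- Closure points of prescribed cofinality inside a directed initial segment `J`. -/
theorem exists_closure_point {μ : Cardinal.{0}} (hμ : μ.IsRegular) {J : Set K}
    (hJ : ∀ x ∈ J, ∀ y < x, y ∈ J) (hd : ∀ S ⊆ J, #S ≤ μ → ∃ b ∈ J, ∀ x ∈ S, x < b)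
    (nx : K → K) (hnx : ∀ x ∈ J, nx x ∈ J) {x0 : K} (hx0 : x0 ∈ J) :
    ∃ τ ∈ J, x0 < τ ∧ LimPt {x | nx x < τ} τ ∧ CofGe τ μ ∧ CofLe τ μ := by
  have : Nonempty K := ⟨x0⟩
  obtain ⟨f, hf1, hf2⟩ := rec_choice (I := μ.ord.ToType) (α := K) (fun _ a => a ∈ J ∧ x0 < a)
    (fun _ a _ b => a < b ∧ nx a < b) (by
      intro i f hf
      obtain ⟨b, hb, hb2⟩ := hd (insert x0 (f '' Iio i ∪ (nx ∘ f) '' Iio i)) (by
          rintro _ (rfl | ⟨j, hj, rfl⟩ | ⟨j, hj, rfl⟩)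
          · exact hx0
          · exact (hf j hj).1
          · exact hnx _ (hf j hj).1) (by
          refine mk_insert_le.trans (add_le_of_le hμ.aleph0_le ?_ (hμ.nat_lt 1).le)
          exact mk_union_le_of_le hμ.aleph0_le (mk_image_le.trans (mk_Iio_idx i).le)
            (mk_image_le.trans (mk_Iio_idx i).le))
      exact ⟨b, ⟨hb, hb2 _ (Or.inl rfl)⟩, fun j hj =>
        ⟨hb2 _ (Or.inr (Or.inl ⟨j, hj, rfl⟩)), hb2 _ (Or.inr (Or.inr ⟨j, hj, rfl⟩))⟩⟩)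
  have hr : #(range f) ≤ μ := mk_range_le.trans (mk_ord_toType μ).le
  obtain ⟨b, hb, hb2⟩ := hd (range f) (by rintro _ ⟨i, rfl⟩; exact (hf1 i).1) hr
  obtain ⟨τ, hτ, hτ2⟩ := exists_least (S := {b | ∀ x ∈ range f, x < b}) ⟨b, hb2⟩
  have hτJ : τ ∈ J := by
    rcases (hτ2 b hb2).lt_or_eq with h | h
    · exact hJ b hb τ h
    · exact h ▸ hb
  have hlt : ∀ i, f i < τ := fun i => hτ _ ⟨i, rfl⟩
  have hcof : ∀ x < τ, ∃ i, x ≤ f i := by
    intro x hx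
    by_contra hn
    push Not at hn
    exact absurd (hτ2 x (by rintro _ ⟨i, rfl⟩; exact hn i)) (not_le.2 hx)
  have hnext : ∀ i : μ.ord.ToType, ∃ j, i < j := by
    intro i
    obtain ⟨j, hj⟩ := bdd_toType hμ {i} (by simpa using hμ.nat_lt 1)
    exact ⟨j, hj i rfl⟩
  obtain ⟨i0, -⟩ := bdd_toType hμ ∅ (by simpa using hμ.pos)
  have hx0τ : x0 < τ := (hf1 i0).2.trans (hlt i0)
  have hlim : LimPt (range f) τ := by
    refine ⟨⟨x0, hx0τ⟩, fun x hx => ?_⟩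
    obtain ⟨i, hi⟩ := hcof x hx
    obtain ⟨j, hj⟩ := hnext i
    exact ⟨f j, ⟨j, rfl⟩, hi.trans_lt (hf2 i j hj).1, hlt j⟩
  refine ⟨τ, hτJ, hx0τ, hlim.mono ?_, ?_, ⟨range f, hr, hlim⟩⟩
  · rintro _ ⟨i, rfl⟩
    obtain ⟨j, hj⟩ := hnext i
    exact (hf2 i j hj).2.trans (hlt j)
  · intro S hS hc
    choose g hg using fun x : S => hcof x.1 (hS x.2)
    obtain ⟨j, hj⟩ := bdd_toType hμ (range g) (mk_range_le.trans_lt hc)
    exact ⟨f j, hlt j, fun x hx => (hg ⟨x, hx⟩).trans_lt (hf2 _ j (hj _ ⟨⟨x, hx⟩, rfl⟩)).1⟩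

/-- The least set containing `I` and closed under `δ ↦ F δ` at its limit points in `S`. -/
def Cl (S : Set K) (F : K → Set K) (I : Set K) : Set K :=
  ⋂₀ {Q | I ⊆ Q ∧ ∀ δ ∈ S, LimPt Q δ → F δ ⊆ Q}

omit [WellFoundedLT K] in
theorem subset_Cl (S : Set K) (F : K → Set K) (I : Set K) : I ⊆ Cl S F I :=
  fun _ hx _ hQ => hQ.1 hx

omit [WellFoundedLT K] in
theorem Cl_min {S : Set K} {F : K → Set K} {I Q : Set K} (h1 : I ⊆ Q)
    (h2 : ∀ δ ∈ S, LimPt Q δ → F δ ⊆ Q) : Cl S F I ⊆ Q :=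
  sInter_subset_of_mem ⟨h1, h2⟩

omit [WellFoundedLT K] in
theorem Cl_closed {S : Set K} {F : K → Set K} {I : Set K} {δ : K} (hδ : δ ∈ S)
    (h : LimPt (Cl S F I) δ) : F δ ⊆ Cl S F I :=
  fun _ hx _ hQ => hQ.2 δ hδ (h.mono (sInter_subset_of_mem hQ)) hx

theorem mk_Cl_le {S : Set K} {F : K → Set K} {I : Set K} {μ : Cardinal.{0}} (hμ : al 2 ≤ μ)
    (hS : ∀ δ ∈ S, CofLe δ (al 1)) (hF : ∀ δ ∈ S, #(F δ) ≤ μ) (hI : #I ≤ μ) :
    #(Cl S F I) ≤ μ := by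
  have hμ0 : ℵ₀ ≤ μ := (aleph0_le_al 2).trans hμ
  obtain ⟨f, hf1, hf2⟩ := rec_choice (I := (al 2).ord.ToType) (α := Set K)
    (fun _ Q => I ⊆ Q ∧ #Q ≤ μ)
    (fun _ Q _ Q' => Q ⊆ Q' ∧ ∀ δ ∈ S, LimPt Q δ → F δ ⊆ Q') (by
      intro i f hf
      refine ⟨I ∪ ⋃ j ∈ Iio i, (f j ∪ ⋃ δ ∈ {δ | δ ∈ S ∧ LimPt (f j) δ}, F δ),
        ⟨subset_union_left, ?_⟩, fun j hj => ⟨?_, fun δ hδ hl => ?_⟩⟩
      · refine mk_union_le_of_le hμ0 hI (mk_biUnion_le_of_le hμ0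
          ((mk_Iio_idx i).le.trans hμ) fun j hj => mk_union_le_of_le hμ0 (hf j hj).2 ?_)
        refine mk_biUnion_le_of_le hμ0 ?_ fun δ hδ => hF δ hδ.1
        exact (mk_le_mk_of_subset fun δ hδ => hδ.2).trans (mk_limPt_le_of_le hμ0 (hf j hj).2)
      · intro x hx
        exact Or.inr (mem_biUnion hj (Or.inl hx))
      · intro x hx
        exact Or.inr (mem_biUnion hj (Or.inr (mem_biUnion (s := {δ | δ ∈ S ∧ LimPt (f j) δ})
          ⟨hδ, hl⟩ hx))))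
  have hreg := al_regular 2
  obtain ⟨i0, -⟩ := bdd_toType hreg ∅ (by simpa using hreg.pos)
  refine (mk_le_mk_of_subset (Cl_min (Q := ⋃ i, f i) ?_ ?_)).trans ?_
  · exact (hf1 i0).1.trans (subset_iUnion f i0)
  · intro δ hδ hl
    obtain ⟨T, hT, hT2, hT3⟩ := (hS δ hδ).small hl
    have : ∀ x : T, ∃ i, x.1 ∈ f i := fun x => mem_iUnion.1 (hT x.2).1
    choose g hg using this
    obtain ⟨j, hj⟩ := bdd_toType hreg (range g)
      (mk_range_le.trans_lt (hT2.trans_lt (al_lt (by norm_num))))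
    obtain ⟨j', hj'⟩ := bdd_toType hreg {j} (by simpa using hreg.nat_lt 1)
    have h1 : LimPt (f j) δ := hT3.mono fun x hx => (hf2 _ j (hj _ ⟨⟨x, hx⟩, rfl⟩)).1 (hg ⟨x, hx⟩)
    exact ((hf2 j j' (hj' j rfl)).2 δ hδ h1).trans (subset_iUnion f j')
  · exact mk_iUnion_le_of_le hμ0 ((mk_ord_toType _).le.trans hμ) fun i => (hf1 i).2

end Pool.Agent.MP_e4c3a7_lc

end MrgPart0

-- ======== part 1: formerly Pool.Agent.MP_e4c3a7_lc.Walk
section MrgPart1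

/-!
Square sequences on a well order, the filtration `KK` and walks.
-/

open Cardinal Set

namespace Pool.Agent.MP_e4c3a7_lc

/-- A coherent sequence of countable width on `K`, by small cofinal sets. -/
structure SqSeq (K : Type) [LinearOrder K] where
  C : K → Set (Set K)
  ne : ∀ α, IsLim α → (C α).Nonempty
  cnt : ∀ α, IsLim α → (C α).Countable
  sub : ∀ α, IsLim α → ∀ c ∈ C α, c ⊆ Iio α
  cof : ∀ α, IsLim α → ∀ c ∈ C α, LimPt c α
  small : ∀ α, IsLim α → ∀ c ∈ C α, #c < lam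
  coh : ∀ α, IsLim α → ∀ c ∈ C α, ∀ β < α, LimPt c β → c ∩ Iio β ∈ C β

variable {K : Type} [LinearOrder K]

theorem not_limPt_singleton (s β : K) : ¬ LimPt {s} β := by
  intro h
  obtain ⟨x, hx⟩ := h.1
  obtain ⟨y, hy, -, h2⟩ := h.2 x hx
  obtain ⟨z, hz, h3, -⟩ := h.2 y h2
  rw [mem_singleton_iff] at hy hz
  rw [hy, hz] at h3
  exact lt_irrefl _ h3

theorem SqSeq.exists_c0 (Q : SqSeq K) (γ : K) : ∃ c : Set K, c ⊆ Iio γ ∧
    (∀ x < γ, ∃ y ∈ c, x ≤ y) ∧ #c < lam ∧ (IsLim γ → LimPt c γ) ∧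
    ∀ β ≤ γ, LimPt c β → c ∩ Iio β ∈ Q.C β := by
  by_cases hl : IsLim γ
  · obtain ⟨c, hc⟩ := Q.ne γ hl
    refine ⟨c, Q.sub γ hl c hc, fun x hx => ?_, Q.small γ hl c hc, fun _ => Q.cof γ hl c hc,
      fun β hβ hlim => ?_⟩
    · obtain ⟨y, hy, h1, -⟩ := (Q.cof γ hl c hc).2 x hx
      exact ⟨y, hy, h1.le⟩
    · rcases hβ.lt_or_eq with h | rfl
      · exact Q.coh γ hl c hc β h hlim
      · rwa [inter_eq_left.2 (Q.sub β hl c hc)]
  · by_cases h0 : ∃ x, x < γ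
    · obtain ⟨s, hs, hs2⟩ := exists_bound_of_not_limPt h0 hl
      refine ⟨{s}, by simpa using hs, fun x hx => ⟨s, rfl, hs2 x (mem_univ _) hx⟩, ?_,
        fun h => absurd h hl, fun β _ h => absurd h (not_limPt_singleton s β)⟩
      simpa using one_lt_aleph0.trans_le aleph0_le_lam
    · refine ⟨∅, empty_subset _, fun x hx => absurd ⟨x, hx⟩ h0, ?_, fun h => absurd h hl,
        fun β _ h => ?_⟩
      · simpa using aleph0_pos.trans_le aleph0_le_lam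
      · obtain ⟨x, hx⟩ := h.1
        obtain ⟨y, hy, -⟩ := h.2 x hx
        exact absurd hy (notMem_empty y)

namespace SqSeq

variable (Q : SqSeq K)

/-- The chosen ladder at `γ`. -/
noncomputable def c0 (γ : K) : Set K := Classical.choose (Q.exists_c0 γ)

theorem c0_sub (γ : K) : Q.c0 γ ⊆ Iio γ := (Classical.choose_spec (Q.exists_c0 γ)).1

theorem c0_cof (γ : K) : ∀ x < γ, ∃ y ∈ Q.c0 γ, x ≤ y :=
  (Classical.choose_spec (Q.exists_c0 γ)).2.1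

theorem c0_small (γ : K) : #(Q.c0 γ) < lam := (Classical.choose_spec (Q.exists_c0 γ)).2.2.1

theorem c0_limPt {γ : K} (h : IsLim γ) : LimPt (Q.c0 γ) γ :=
  (Classical.choose_spec (Q.exists_c0 γ)).2.2.2.1 h

theorem c0_coh {γ β : K} (hβ : β ≤ γ) (h : LimPt (Q.c0 γ) β) : Q.c0 γ ∩ Iio β ∈ Q.C β :=
  (Classical.choose_spec (Q.exists_c0 γ)).2.2.2.2 β hβ h

/-- The points reached by a walk from `γ` along ladders of size at most `ℵ_k`. -/
inductive InX (k : ℕ) : K → K → Prop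
  | base {γ x : K} : #(Q.c0 γ) ≤ al k → x ∈ Q.c0 γ → InX k γ x
  | step {γ γ' x : K} : #(Q.c0 γ) ≤ al k → γ' ∈ Q.c0 γ → InX k γ' x →
      (∀ y ∈ Q.c0 γ, y < γ' → y ≤ x) → InX k γ x

/-- The `k`-th piece of the filtration of `γ`. -/
def X (γ : K) (k : ℕ) : Set K := {x | Q.InX k γ x}

/-- The `k`-th piece of the filtration attached to a ladder `C`. -/
def KK (k : ℕ) (C : Set K) : Set K :=
  {x | #C ≤ al k ∧ (x ∈ C ∨ ∃ γ' ∈ C, x ∈ Q.X γ' k ∧ ∀ y ∈ C, y < γ' → y ≤ x)}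

theorem X_eq (γ : K) (k : ℕ) : Q.X γ k = Q.KK k (Q.c0 γ) := by
  ext x
  constructor
  · intro h
    cases h with
    | base h1 h2 => exact ⟨h1, Or.inl h2⟩
    | step h1 h2 h3 h4 => exact ⟨h1, Or.inr ⟨_, h2, h3, h4⟩⟩
  · rintro ⟨h1, h2 | ⟨γ', h2, h3, h4⟩⟩
    · exact InX.base h1 h2
    · exact InX.step h1 h2 h3 h4

theorem X_lt {γ x : K} {k : ℕ} (h : x ∈ Q.X γ k) : x < γ := by
  change Q.InX k γ x at h
  induction h with
  | base _ h2 => exact Q.c0_sub _ h2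
  | step _ h2 _ _ ih => exact ih.trans (Q.c0_sub _ h2)

theorem X_mono {γ : K} {k k' : ℕ} (hk : k ≤ k') : Q.X γ k ⊆ Q.X γ k' := by
  intro x h
  change Q.InX k γ x at h
  change Q.InX k' γ x
  induction h with
  | base h1 h2 => exact InX.base (h1.trans (al_mono hk)) h2
  | step h1 h2 _ h4 ih => exact InX.step (h1.trans (al_mono hk)) h2 ih h4

theorem KK_mono {C : Set K} {k k' : ℕ} (hk : k ≤ k') : Q.KK k C ⊆ Q.KK k' C := by
  rintro x ⟨h1, h2 | ⟨γ', h2, h3, h4⟩⟩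
  · exact ⟨h1.trans (al_mono hk), Or.inl h2⟩
  · exact ⟨h1.trans (al_mono hk), Or.inr ⟨γ', h2, Q.X_mono hk h3, h4⟩⟩

theorem mk_KK_le_aux {C : Set K} {k : ℕ} (h : ∀ γ ∈ C, #(Q.X γ k) ≤ al k) :
    #(Q.KK k C) ≤ al k := by
  by_cases hC : #C ≤ al k
  · have : Q.KK k C ⊆ C ∪ ⋃ γ ∈ C, Q.X γ k := by
      rintro x ⟨-, h2 | ⟨γ', h2, h3, -⟩⟩
      · exact Or.inl h2
      · exact Or.inr (mem_biUnion h2 h3)
    exact (mk_le_mk_of_subset this).trans (mk_union_le_of_le (aleph0_le_al k) hC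
      (mk_biUnion_le_of_le (aleph0_le_al k) hC h))
  · have : Q.KK k C = ∅ := eq_empty_of_forall_notMem fun x hx => hC hx.1
    simp [this]

theorem KK_lim {C : Set K} {k : ℕ} {β x : K} (hβ : LimPt C β) (hx : x ∈ Q.KK k C) (hxβ : x < β) :
    x ∈ Q.KK k (C ∩ Iio β) := by
  obtain ⟨h1, h2⟩ := hx
  refine ⟨(mk_le_mk_of_subset inter_subset_left).trans h1, ?_⟩
  rcases h2 with h2 | ⟨γ', h2, h3, h4⟩
  · exact Or.inl ⟨h2, hxβ⟩
  · refine Or.inr ⟨γ', ⟨h2, ?_⟩, h3, fun y hy => h4 y hy.1⟩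
    by_contra hn
    obtain ⟨y, hy, h5, h6⟩ := hβ.2 x hxβ
    exact absurd (h4 y hy (h6.trans_le (not_lt.1 hn))) (not_le.2 h5)

theorem KK_gap {C : Set K} {k : ℕ} {β γ s x : K} (hγ : γ ∈ C) (hβγ : β ≤ γ)
    (hmin : ∀ y ∈ C, β ≤ y → γ ≤ y) (hs : ∀ y ∈ C, y < β → y ≤ s) (hx : x ∈ Q.KK k C)
    (hsx : s < x) (hxβ : x < β) : x ∈ Q.X γ k := by
  obtain ⟨-, h2 | ⟨γ', h2, h3, h4⟩⟩ := hx
  · exact absurd (hs x h2 hxβ) (not_le.2 hsx)
  · have h5 : β ≤ γ' := by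
      by_contra hn
      exact absurd (hs γ' h2 (not_le.1 hn)) (not_le.2 (hsx.trans (Q.X_lt h3)))
    rcases (hmin γ' h2 h5).lt_or_eq with h6 | h6
    · exact absurd (h4 γ hγ h6) (not_le.2 (hxβ.trans_le hβγ))
    · exact h6 ▸ h3

variable [WellFoundedLT K]

theorem mk_X_le (k : ℕ) (γ : K) : #(Q.X γ k) ≤ al k := by
  induction γ using WellFoundedLT.induction with
  | ind γ ih =>
    rw [X_eq]
    exact Q.mk_KK_le_aux fun γ' h => ih γ' (Q.c0_sub γ h)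

theorem mk_KK_le (k : ℕ) (C : Set K) : #(Q.KK k C) ≤ al k :=
  Q.mk_KK_le_aux fun γ _ => Q.mk_X_le k γ

theorem KK_cover_aux {C : Set K} (hC : #C < lam) {x : K} (hx : ∃ y ∈ C, x ≤ y)
    (ih : ∀ γ ∈ C, x < γ → ∃ k, x ∈ Q.X γ k) : ∃ k, x ∈ Q.KK k C := by
  obtain ⟨n, hn⟩ := exists_le_al hC
  obtain ⟨m, hm, hm2⟩ := exists_least (S := {y | y ∈ C ∧ x ≤ y}) hx
  rcases hm.2.lt_or_eq with h | h
  · obtain ⟨k, hk⟩ := ih m hm.1 h
    refine ⟨max n k, hn.trans (al_mono (le_max_left _ _)), Or.inr ⟨m, hm.1,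
      Q.X_mono (le_max_right _ _) hk, fun y hy hym => ?_⟩⟩
    by_contra hn
    exact absurd (hm2 y ⟨hy, (not_le.1 hn).le⟩) (not_le.2 hym)
  · exact ⟨n, hn, Or.inl (h ▸ hm.1)⟩

theorem X_cover {γ x : K} (hx : x < γ) : ∃ k, x ∈ Q.X γ k := by
  induction γ using WellFoundedLT.induction with
  | ind γ ih =>
    simp only [X_eq Q γ]
    exact Q.KK_cover_aux (Q.c0_small γ) (Q.c0_cof γ x hx) fun γ' h h' => ih γ' (Q.c0_sub γ h) h'

theorem KK_cover {C : Set K} (hC : #C < lam) {x : K} (hx : ∃ y ∈ C, x ≤ y) :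
    ∃ k, x ∈ Q.KK k C :=
  Q.KK_cover_aux hC hx fun _ _ h => Q.X_cover h

/-- The properties of the walk from `α`. -/
def IsWalk (α : K) (cl : K → Set K) (ep : K → K) : Prop :=
  ∀ β ≤ α, IsLim β → cl β ∈ Q.C β ∧ ep β < β ∧
    (∀ k x, x ∈ Q.X α k → ep β < x → x < β → x ∈ Q.KK k (cl β)) ∧
    ∃ F : Set (Set K), F.Finite ∧ ∀ δ, β ≤ δ → δ ≤ α → IsLim δ → ep δ < β →
      (∃ c ∈ F, cl δ = c ∩ Iio δ) ∧
        ∀ k x, x ∈ Q.KK k (cl δ) → ep β < x → x < β → x ∈ Q.KK k (cl β)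

theorem exists_walk (α : K) : ∃ cl ep, Q.IsWalk α cl ep := by
  classical
  induction α using WellFoundedLT.induction with
  | ind α ih =>
    have : Nonempty K := ⟨α⟩
    have ih' : ∀ γ : K, ∃ cl ep, γ < α → Q.IsWalk γ cl ep := by
      intro γ
      by_cases h : γ < α
      · obtain ⟨cl, ep, h2⟩ := ih γ h
        exact ⟨cl, ep, fun _ => h2⟩
      · exact ⟨fun _ => ∅, id, fun h' => absurd h' h⟩
    choose cl' ep' hw using ih'
    set C := Q.c0 α with hC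
    have h1 : ∀ β : K, ∃ γ s : K, β ≤ α → IsLim β → s < β ∧ (¬ LimPt C β →
        γ ∈ C ∧ β ≤ γ ∧ (∀ y ∈ C, β ≤ y → γ ≤ y) ∧ ∀ y ∈ C, y < β → y ≤ s) := by
      intro β
      by_cases hβ : β ≤ α ∧ IsLim β
      · by_cases hl : LimPt C β
        · obtain ⟨x, hx⟩ := hl.1
          exact ⟨x, x, fun _ _ => ⟨hx, fun h => absurd hl h⟩⟩
        · obtain ⟨s, hs, hs2⟩ := exists_bound_of_not_limPt hβ.2.1 hl
          have hlt : β < α := by
            rcases hβ.1.lt_or_eq with h | h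
            · exact h
            · subst h
              exact absurd (Q.c0_limPt hβ.2) hl
          obtain ⟨m, hm, hm2⟩ := exists_least (S := {y | y ∈ C ∧ β ≤ y}) (Q.c0_cof α β hlt)
          exact ⟨m, s, fun _ _ => ⟨hs, fun _ => ⟨hm.1, hm.2, fun y hy hy2 => hm2 y ⟨hy, hy2⟩,
            hs2⟩⟩⟩
      · exact ⟨β, β, fun h h' => absurd ⟨h, h'⟩ hβ⟩
    choose γ s hγ using h1
    refine ⟨fun β => if LimPt C β then C ∩ Iio β else cl' (γ β) β,
      fun β => if LimPt C β then s β else max (s β) (ep' (γ β) β), ?_⟩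
    intro β hβ hlim
    obtain ⟨hsβ, hγβ⟩ := hγ β hβ hlim
    by_cases hl : LimPt C β
    · simp only [if_pos hl]
      refine ⟨Q.c0_coh hβ hl, hsβ, fun k x hx _ hxβ => Q.KK_lim hl (Q.X_eq α k ▸ hx) hxβ,
        {C}, finite_singleton _, fun δ hβδ hδ hδl hep => ?_⟩
      have hδ' : LimPt C δ := by
        by_contra hn
        rw [if_neg hn] at hep
        obtain ⟨y, hy, h1, h2⟩ := hl.2 _ hep
        have := ((hγ δ hδ hδl).2 hn).2.2.2 y hy (h2.trans_le hβδ)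
        exact absurd (this.trans (le_max_left _ _)) (not_le.2 h1)
      rw [if_pos hδ']
      refine ⟨⟨C, rfl, rfl⟩, fun k x hx _ hxβ => ?_⟩
      have := Q.KK_lim (hl.inter_Iio hβδ) hx hxβ
      rwa [inter_assoc, Iio_inter_Iio, min_eq_right hβδ] at this
    · simp only [if_neg hl]
      obtain ⟨h1, h2, h3, h4⟩ := hγβ hl
      have hγα : γ β < α := Q.c0_sub α h1
      obtain ⟨w1, w2, w3, F, hF, w4⟩ := hw (γ β) hγα β h2 hlim
      refine ⟨w1, max_lt hsβ w2, fun k x hx hx1 hx2 => ?_, insert C F, hF.insert C,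
        fun δ hβδ hδ hδl hep => ?_⟩
      · exact w3 k x (Q.KK_gap h1 h2 h3 h4 (Q.X_eq α k ▸ hx) ((le_max_left _ _).trans_lt hx1) hx2)
          ((le_max_right _ _).trans_lt hx1) hx2
      · by_cases hδ' : LimPt C δ
        · rw [if_pos hδ']
          refine ⟨⟨C, mem_insert _ _, rfl⟩, fun k x hx hx1 hx2 => ?_⟩
          have hβδ' : β < δ := lt_of_le_of_ne hβδ fun h => hl (h ▸ hδ')
          obtain ⟨y, hy, hy1, hy2⟩ := hδ'.2 β hβδ'
          have hγδ : γ β < δ := (h3 y hy hy1.le).trans_lt hy2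
          refine w3 k x (Q.KK_gap (C := C ∩ Iio δ) ⟨h1, hγδ⟩ h2 (fun y hy => h3 y hy.1)
            (fun y hy => h4 y hy.1) hx ((le_max_left _ _).trans_lt hx1) hx2)
            ((le_max_right _ _).trans_lt hx1) hx2
        · rw [if_neg hδ'] at hep ⊢
          obtain ⟨g1, g2, g3, g4⟩ := (hγ δ hδ hδl).2 hδ'
          have hδγ : δ ≤ γ β := by
            by_contra hn
            have := g4 _ h1 (not_le.1 hn)
            exact absurd (h2.trans (this.trans (le_max_left _ _))) (not_le.2 hep)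
          have heq : γ δ = γ β := le_antisymm (g3 _ h1 hδγ) (h3 _ g1 (hβδ.trans g2))
          rw [heq] at hep ⊢
          obtain ⟨⟨c, hc, hc2⟩, v2⟩ := w4 δ hβδ hδγ hδl ((le_max_right _ _).trans_lt hep)
          exact ⟨⟨c, mem_insert_of_mem _ hc, hc2⟩, fun k x hx hx1 hx2 =>
            v2 k x hx ((le_max_right _ _).trans_lt hx1) hx2⟩

end SqSeq

end Pool.Agent.MP_e4c3a7_lc

end MrgPart1

-- ======== part 2: formerly Pool.Agent.MP_e4c3a7_lc.Club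
section MrgPart2

/-!
The club system attached to one parameter.
-/

open Cardinal Set

namespace Pool.Agent.MP_e4c3a7_lc

variable {K : Type} [LinearOrder K]

/-- `U` fails to reflect at many points of cofinality at least `ℵ_{m+2}` below `σ`. -/
def Good (U : Set K) (m : ℕ) (σ : K) : Prop :=
  ∀ nx : K → K, (∀ x < σ, nx x < σ) → ∃ τ < σ, LimPt {x | nx x < τ} τ ∧ CofGe τ (al (m + 2)) ∧
    ∃ e : Set K, LimPt e τ ∧ ∀ β < τ, LimPt e β → β ∉ U

/-- `ρ` maps `B ∩ σ` cofinally. -/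
def RCof (ρ : K → K) (B : Set K) (σ : K) : Prop := ∀ x < σ, ∃ p ∈ B, x < p ∧ p < σ ∧ x < ρ p

theorem exists_P {U : Set K} {m : ℕ} {σ s : K} {ρ : K → K} (hG : Good U m σ)
    (hσ : CofGe σ (al (m + 3))) (hs : s < σ) {𝒜 : Set (Set K)} (h𝒜 : #𝒜 ≤ al (m + 2))
    (hB : ∀ B ∈ 𝒜, RCof ρ B σ) :
    ∃ P : Set K, (∀ p ∈ P, s < p ∧ ∃ B ∈ 𝒜, p ∈ B) ∧
      (∀ β, LimPt P β → β ∉ U ∨ CofGe β (al (m + 2))) ∧
      ∀ B ∈ 𝒜, ∃ p ∈ P, p ∈ B ∧ ∃ y, s ≤ y ∧ y < p ∧ y < ρ p ∧ ∀ p' ∈ P, p' < p → p' ≤ y := by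
  rcases 𝒜.eq_empty_or_nonempty with rfl | hne
  · refine ⟨∅, by simp, fun β h => ?_, by simp⟩
    obtain ⟨x, hx⟩ := h.1
    obtain ⟨y, hy, -⟩ := h.2 x hx
    exact absurd hy (notMem_empty y)
  have : Nonempty 𝒜 := hne.to_subtype
  have : Nonempty K := ⟨s⟩
  obtain ⟨emb⟩ : Nonempty (𝒜 ↪ (al (m + 2)).ord.ToType) := by
    rw [← Cardinal.le_def, mk_ord_toType]; exact h𝒜
  set b := Function.invFun emb
  have hb : Function.Surjective b := Function.invFun_surjective emb.injective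
  have h1 : ∀ x : K, ∃ c : K, x < σ → c < σ ∧ s < c ∧
      ∀ B ∈ 𝒜, ∃ p ∈ B, x < p ∧ p < c ∧ x < ρ p := by
    intro x
    by_cases hx : x < σ
    · choose p hp hp1 hp2 hp3 using fun B : 𝒜 => hB B.1 B.2 x hx
      obtain ⟨c, hc, hc2⟩ := hσ.bound (ι := 𝒜) (lt_al_succ.2 h𝒜) p hp2
      obtain ⟨s', -, hs1, hs2⟩ := (hσ.isLim (aleph0_le_al _)).2 s hs
      exact ⟨max c s', fun _ => ⟨max_lt hc hs2, hs1.trans_le (le_max_right _ _), fun B hB =>
        ⟨p ⟨B, hB⟩, hp ⟨B, hB⟩, hp1 _, (hc2 _).trans_le (le_max_left _ _), hp3 _⟩⟩⟩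
    · exact ⟨x, fun h => absurd h hx⟩
  choose nx hnx using h1
  obtain ⟨τ, hτ, hcl, hcof, e, he, heU⟩ := hG nx fun x hx => (hnx x hx).1
  have hsτ : s < τ := by
    obtain ⟨x, hx⟩ := hcl.1
    obtain ⟨y, hy, -, h2⟩ := hcl.2 x hx
    exact (hnx y (h2.trans hτ)).2.1.trans hy
  have h2 : ∀ x < τ, ∀ B ∈ 𝒜, ∃ p ∈ B, x < p ∧ p < τ ∧ x < ρ p := by
    intro x hx B hB
    obtain ⟨y, hy, h1, h2⟩ := hcl.2 x hx
    obtain ⟨p, hp, h3, h4, h5⟩ := (hnx y (h2.trans hτ)).2.2 B hB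
    exact ⟨p, hp, h1.trans h3, h4.trans hy, h1.trans h5⟩
  obtain ⟨f, hf1, hf2⟩ := rec_choice (I := (al (m + 2)).ord.ToType) (α := K × K)
    (fun i a => a.1 ∈ e ∧ s < a.1 ∧ a.1 < a.2 ∧ a.2 < τ ∧ a.2 ∈ (b i).1 ∧ a.1 < ρ a.2)
    (fun _ a _ a' => a.2 < a'.1) (by
      intro i f hf
      obtain ⟨c, hc, hc2⟩ := hcof.bound (ι := Iio i) (mk_Iio_idx i) (fun j => (f j.1).2)
        fun j => (hf j.1 j.2).2.2.2.1
      obtain ⟨y, hy, hy1, hy2⟩ := he.2 (max c s) (max_lt hc hsτ)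
      obtain ⟨p, hp, hp1, hp2, hp3⟩ := h2 y hy2 (b i).1 (b i).2
      exact ⟨(y, p), ⟨hy, (le_max_right _ _).trans_lt hy1, hp1, hp2, hp, hp3⟩, fun j hj =>
        (hc2 ⟨j, hj⟩).trans ((le_max_left _ _).trans_lt hy1)⟩)
  have hord : ∀ i j, (f i).2 < (f j).2 → i < j := by
    intro i j h
    rcases lt_trichotomy i j with h' | h' | h'
    · exact h'
    · rw [h'] at h; exact absurd h (lt_irrefl _)
    · exact absurd ((hf2 j i h').trans (hf1 i).2.2.1) (lt_asymm h)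
  refine ⟨range fun i => (f i).2, ?_, fun β hβ => ?_, fun B hB => ?_⟩
  · rintro _ ⟨i, rfl⟩
    exact ⟨(hf1 i).2.1.trans (hf1 i).2.2.1, _, (b i).2, (hf1 i).2.2.2.2.1⟩
  · have hβτ : β ≤ τ := by
      by_contra hn
      obtain ⟨_, ⟨i, rfl⟩, h1, -⟩ := hβ.2 τ (not_le.1 hn)
      exact lt_asymm h1 (hf1 i).2.2.2.1
    rcases hβτ.lt_or_eq with h | h
    · refine Or.inl (heU β h ⟨hβ.1, fun x hx => ?_⟩)
      obtain ⟨_, ⟨i, rfl⟩, h1, h2⟩ := hβ.2 x hx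
      obtain ⟨_, ⟨j, rfl⟩, h3, h4⟩ := hβ.2 _ h2
      exact ⟨(f j).1, (hf1 j).1, h1.trans (hf2 i j (hord i j h3)), (hf1 j).2.2.1.trans h4⟩
    · exact Or.inr (h ▸ hcof)
  · obtain ⟨i, hi⟩ := hb ⟨B, hB⟩
    refine ⟨(f i).2, ⟨i, rfl⟩, ?_, (f i).1, (hf1 i).2.1.le, (hf1 i).2.2.1, (hf1 i).2.2.2.2.2, ?_⟩
    · have := (hf1 i).2.2.2.2.1
      rwa [hi] at this
    · rintro _ ⟨j, rfl⟩ h
      exact (hf2 j i (hord j i h)).le

/-- The data determined by one parameter. -/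
structure Dat (K : Type) [LinearOrder K] where
  U : Set K
  A : K → Set K
  ρ : K → K
  g : ℕ → ℕ
  idx : Set K → ℕ → ℕ
  b : K
  hidx : ∀ c δ, b < δ → idx (c ∩ Iio δ) = idx c

variable (Q : SqSeq K) (d : Dat K)

/-- The good points for `δ`, the ladder `c` and the level `m`. -/
def GS (δ : K) (c : Set K) (m : ℕ) : Set K :=
  {σ | σ ∈ Q.KK (d.idx c m) c ∧ CofGe σ (al (m + 3)) ∧ Good d.U m σ ∧
    RCof d.ρ (d.A δ ∩ Q.X σ (d.g m)) σ}

/-- The set of points where guessing takes place. -/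
def SS : Set K :=
  {δ | δ ∈ d.U ∧ d.b < δ ∧ IsLim δ ∧ CofLe δ (al 1) ∧ ∀ c ∈ Q.C δ, ∀ m, LimPt (GS Q d δ c m) δ}

theorem exists_Sig (δ : K) (c : Set K) (m : ℕ) : ∃ T ⊆ GS Q d δ c m ∩ Iio δ, #T ≤ al 1 ∧
    (δ ∈ SS Q d → c ∈ Q.C δ → LimPt T δ) := by
  by_cases h : δ ∈ SS Q d ∧ c ∈ Q.C δ
  · obtain ⟨T, h1, h2, h3⟩ := h.1.2.2.2.1.small (h.1.2.2.2.2 c h.2 m)
    exact ⟨T, h1, h2, fun _ _ => h3⟩
  · exact ⟨∅, empty_subset _, by simp, fun h1 h2 => absurd ⟨h1, h2⟩ h⟩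

/-- A small cofinal set of good points. -/
noncomputable def Sig (δ : K) (c : Set K) (m : ℕ) : Set K := Classical.choose (exists_Sig Q d δ c m)

theorem Sig_sub (δ : K) (c : Set K) (m : ℕ) : Sig Q d δ c m ⊆ GS Q d δ c m ∩ Iio δ :=
  (Classical.choose_spec (exists_Sig Q d δ c m)).1

theorem mk_Sig_le (δ : K) (c : Set K) (m : ℕ) : #(Sig Q d δ c m) ≤ al 1 :=
  (Classical.choose_spec (exists_Sig Q d δ c m)).2.1

theorem Sig_limPt {δ : K} {c : Set K} (m : ℕ) (h : δ ∈ SS Q d) (hc : c ∈ Q.C δ) :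
    LimPt (Sig Q d δ c m) δ :=
  (Classical.choose_spec (exists_Sig Q d δ c m)).2.2 h hc

/-- The global closure of the `k`-th piece attached to `c`. -/
def QQ (c : Set K) (k : ℕ) : Set K :=
  Cl (SS Q d) (fun δ => ⋃ c ∈ Q.C δ, ⋃ m, Sig Q d δ c m) (Q.KK k c)

/-- The envelopes. -/
def Env (c : Set K) (k j : ℕ) : Set K := clo (QQ Q d c k ∪ ⋃ σ ∈ QQ Q d c k, Q.X σ j)

variable [WellFoundedLT K]

theorem mk_Env_le (c : Set K) (k j : ℕ) : #(Env Q d c k j) ≤ al (k + j + 2) := by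
  have h0 := aleph0_le_al (k + j + 2)
  have h1 : #(QQ Q d c k) ≤ al (k + j + 2) := by
    refine mk_Cl_le (al_mono (by omega)) (fun δ hδ => hδ.2.2.2.1) (fun δ hδ => ?_)
      ((Q.mk_KK_le k c).trans (al_mono (by omega)))
    refine mk_biUnion_le_of_le h0 ((le_aleph0_iff_set_countable.2 (Q.cnt δ hδ.2.2.1)).trans h0)
      fun c _ => mk_iUnion_le_of_le h0 (by simpa using h0) fun m =>
        (mk_Sig_le Q d δ c m).trans (al_mono (by omega))
  exact mk_clo_le h0 (mk_union_le_of_le h0 h1 (mk_biUnion_le_of_le h0 h1 fun σ _ =>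
    (Q.mk_X_le j σ).trans (al_mono (by omega))))

theorem exists_D_at {α : K} (hα : IsLim α) : ∃ D : Set K, D ⊆ Iio α ∧ LimPt D α ∧
    (∀ β < α, LimPt D β → β ∈ D) ∧
    (∀ β, LimPt D β → ∃ ε < β, ∃ c ∈ Q.C β, ∃ k j, ∀ y ∈ D, ε < y → y < β → y ∈ Env Q d c k j) ∧
    ∀ δ ∈ SS Q d, LimPt D δ → ∀ x < δ, ∃ p ∈ D, p ∈ d.A δ ∧ p < δ ∧
      ∃ y, x ≤ y ∧ y < p ∧ y < d.ρ p ∧ ∀ z ∈ D, z < p → z ≤ y := by
  obtain ⟨cl, ep, hw⟩ := Q.exists_walk α
  obtain ⟨m, hm⟩ := exists_le_al (Q.c0_small α)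
  have h0 := aleph0_le_al (m + 2)
  set F : K → Set K := fun δ => Sig Q d δ (cl δ) m ∩ Ioi (ep δ) with hF
  set R := Cl (SS Q d) F (Q.c0 α) with hR
  have hFlt : ∀ δ, ∀ x ∈ F δ, x < δ := fun δ x hx => (Sig_sub Q d δ _ m hx.1).2
  have hle : ∀ {E : Set K} {β : K}, E ⊆ Iio α → LimPt E β → β ≤ α := by
    intro E β hE hβ
    by_contra hn
    obtain ⟨y, hy, h1, -⟩ := hβ.2 α (not_le.1 hn)
    exact lt_asymm h1 (hE hy)
  have hRα : R ⊆ Iio α := Cl_min (Q.c0_sub α) fun δ _ hl x hx =>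
    (hFlt δ x hx).trans_le (hle subset_rfl hl)
  have hRlim : LimPt R α := (Q.c0_limPt hα).mono (subset_Cl _ _ _)
  have hRcard : #R ≤ al (m + 2) := mk_Cl_le (al_mono (by omega)) (fun δ hδ => hδ.2.2.2.1)
    (fun δ _ => (mk_le_mk_of_subset inter_subset_left).trans
      ((mk_Sig_le Q d δ _ m).trans (al_mono (by omega)))) (hm.trans (al_mono (by omega)))
  have hP : ∀ σ : K, ∃ P : Set K, P ⊆ Q.X σ (d.g m) ∧ (∀ p ∈ P, ∀ y ∈ R, y < σ → y < p) ∧
      (∀ β, LimPt P β → β ∉ SS Q d) ∧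
      (CofGe σ (al (m + 3)) → Good d.U m σ → ∀ δ, LimPt R δ →
        RCof d.ρ (d.A δ ∩ Q.X σ (d.g m)) σ → ∃ p ∈ P, p ∈ d.A δ ∧
          ∃ y, (∀ z ∈ R, z < σ → z ≤ y) ∧ y < p ∧ y < d.ρ p ∧ ∀ p' ∈ P, p' < p → p' ≤ y) := by
    intro σ
    by_cases hσ : CofGe σ (al (m + 3)) ∧ Good d.U m σ
    · obtain ⟨s, hs, hs2⟩ := hσ.1 (R ∩ Iio σ) inter_subset_right
        (lt_al_succ.2 ((mk_le_mk_of_subset inter_subset_left).trans hRcard))
      obtain ⟨P, hP1, hP2, hP3⟩ := exists_P (ρ := d.ρ) hσ.2 hσ.1 hs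
        (𝒜 := (fun δ => d.A δ ∩ Q.X σ (d.g m)) ''
          {δ | LimPt R δ ∧ RCof d.ρ (d.A δ ∩ Q.X σ (d.g m)) σ})
        (mk_image_le.trans ((mk_le_mk_of_subset fun δ hδ => hδ.1).trans
          (mk_limPt_le_of_le h0 hRcard))) (by rintro _ ⟨δ, hδ, rfl⟩; exact hδ.2)
      refine ⟨P, fun p hp => ?_, fun p hp y hy hyσ => (hs2 y ⟨hy, hyσ⟩).trans (hP1 p hp).1,
        fun β hβ hS => ?_, fun _ _ δ h1 h2 => ?_⟩
      · obtain ⟨-, _, ⟨δ, -, rfl⟩, h⟩ := hP1 p hp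
        exact h.2
      · rcases hP2 β hβ with h | h
        · exact h hS.1
        · exact h.not_cofLe (al_lt (by omega)) hS.2.2.2.1
      · obtain ⟨p, hp, hp2, y, hy1, hy2⟩ := hP3 _ ⟨δ, ⟨h1, h2⟩, rfl⟩
        exact ⟨p, hp, hp2.1, y, fun z hz hzσ => (hs2 z ⟨hz, hzσ⟩).le.trans hy1, hy2⟩
    · refine ⟨∅, empty_subset _, by simp, fun β h => ?_, fun h1 h2 => absurd ⟨h1, h2⟩ hσ⟩
      obtain ⟨x, hx⟩ := h.1
      obtain ⟨y, hy, -⟩ := h.2 x hx
      exact absurd hy (notMem_empty y)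
  choose P hP1 hP2 hP3 hP4 using hP
  have hPlt : ∀ σ, ∀ p ∈ P σ, p < σ := fun σ p hp => Q.X_lt (hP1 σ hp)
  set E := R ∪ ⋃ σ ∈ R, P σ with hE
  have hEα : E ⊆ Iio α := by
    rintro x (hx | hx)
    · exact hRα hx
    · obtain ⟨σ, hσ, hx⟩ := mem_iUnion₂.1 hx
      exact (hPlt σ x hx).trans (hRα hσ)
  have hDE : ∀ {β : K}, LimPt (clo E ∩ Iio α) β → LimPt E β := fun h =>
    limPt_clo (h.mono inter_subset_left)
  have hgap : ∀ β, LimPt E β → ¬ LimPt R β → ∃ σ, β ≤ σ ∧ ∃ s < β, ∀ y ∈ E, s < y → y < β →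
      y ∈ P σ := by
    intro β hβ hn
    obtain ⟨s, hs, hs2⟩ := exists_bound_of_not_limPt hβ.1 hn
    have hβα : β < α := lt_of_le_of_ne (hle hEα hβ) fun h => hn (h ▸ hRlim)
    obtain ⟨σ, hσ, hσ2⟩ := exists_least (S := {y | y ∈ R ∧ β ≤ y}) (by
      obtain ⟨y, hy, h1, -⟩ := hRlim.2 β hβα
      exact ⟨y, hy, h1.le⟩)
    refine ⟨σ, hσ.2, s, hs, fun y hy h1 h2 => ?_⟩
    rcases hy with hy | hy
    · exact absurd (hs2 y hy h2) (not_le.2 h1)
    · obtain ⟨σ', hσ', hy⟩ := mem_iUnion₂.1 hy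
      have h3 : β ≤ σ' := by
        by_contra hn
        exact absurd (hs2 σ' hσ' (not_le.1 hn)) (not_le.2 (h1.trans (hPlt σ' y hy)))
      rcases (hσ2 σ' ⟨hσ', h3⟩).lt_or_eq with h | h
      · exact absurd (hP2 σ' y hy σ hσ.1 h) (not_lt.2 (h2.le.trans hσ.2))
      · exact h ▸ hy
  have htail : ∀ β ε : K, ∀ B : Set K, (∀ y ∈ E, ε < y → y < β → y ∈ B) →
      ∀ y ∈ clo E ∩ Iio α, ε < y → y < β → y ∈ clo B := by
    rintro β ε B h y ⟨hy | hy, -⟩ h1 h2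
    · exact Or.inl (h y hy h1 h2)
    · exact Or.inr (LimPt.tail hy h1 fun z hz h3 h4 => h z hz h3 (h4.trans h2))
  refine ⟨clo E ∩ Iio α, inter_subset_right,
    (hRlim.mono (subset_union_left.trans (subset_clo E))).inter_Iio le_rfl,
    fun β hβ hl => ⟨Or.inr (hDE hl), hβ⟩, fun β hβ => ?_, fun δ hδ hl x hx => ?_⟩
  · have hβE := hDE hβ
    have hβα := hle hEα hβE
    by_cases hβR : LimPt R β
    · obtain ⟨w1, w2, w3, F₀, hF₀, w4⟩ := hw β hβα hβ.isLim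
      obtain ⟨k₀, hk₀⟩ := (hF₀.image fun c => d.idx c m).bddAbove
      have hRQ : R ⊆ {x | x ∈ R ∧ (ep β < x → x < β → x ∈ QQ Q d (cl β) (max m k₀))} := by
        refine Cl_min (fun x hx => ⟨subset_Cl _ _ _ hx, fun h1 h2 => subset_Cl _ _ _ ?_⟩)
          fun δ hδ hl x hx => ?_
        · exact Q.KK_mono (le_max_left _ _) (w3 m x (SqSeq.InX.base hm hx) h1 h2)
        · have hlR : LimPt R δ := hl.mono fun x hx => hx.1
          have hδα := hle hRα hlR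
          refine ⟨Cl_closed hδ hlR hx, fun h1 h2 => ?_⟩
          rcases le_or_gt β δ with h | h
          · obtain ⟨⟨c, hc, hc2⟩, v⟩ := w4 δ h hδα hδ.2.2.1 (lt_trans hx.2 h2)
            have h3 := v _ x (Sig_sub Q d δ _ m hx.1).1.1 h1 h2
            have h4 : d.idx (cl δ) m ≤ max m k₀ := by
              rw [hc2, d.hidx c δ hδ.2.1]
              exact (hk₀ ⟨c, hc, rfl⟩).trans (le_max_right _ _)
            exact subset_Cl _ _ _ (Q.KK_mono h4 h3)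
          · have h3 : LimPt (QQ Q d (cl β) (max m k₀)) δ :=
              hl.tail (h1.trans (hFlt δ x hx)) fun y hy h4 h5 => hy.2 h4 (h5.trans h)
            exact Cl_closed hδ h3 (mem_biUnion (hw δ hδα hδ.2.2.1).1 (mem_iUnion.2 ⟨m, hx.1⟩))
      refine ⟨ep β, w2, cl β, w1, max m k₀, d.g m, htail β _ _ fun y hy h1 h2 => ?_⟩
      rcases hy with hy | hy
      · exact Or.inl ((hRQ hy).2 h1 h2)
      · obtain ⟨σ, hσ, hy⟩ := mem_iUnion₂.1 hy
        have h3 : σ < β := by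
          by_contra hn
          obtain ⟨z, hz, h4, h5⟩ := hβR.2 y h2
          exact lt_asymm h4 (hP2 σ y hy z hz (h5.trans_le (not_lt.1 hn)))
        exact Or.inr (mem_biUnion ((hRQ hσ).2 (h1.trans (hPlt σ y hy)) h3) (hP1 σ hy))
    · obtain ⟨σ, hσ, s, hs, hs2⟩ := hgap β hβE hβR
      obtain ⟨cl', ep', hw'⟩ := Q.exists_walk σ
      obtain ⟨w1, w2, w3, -⟩ := hw' β hσ hβ.isLim
      refine ⟨max s (ep' β), max_lt hs w2, cl' β, w1, d.g m, 0, htail β _ _ fun y hy h1 h2 => ?_⟩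
      exact Or.inl (subset_Cl _ _ _ (w3 _ y (hP1 σ (hs2 y hy ((le_max_left _ _).trans_lt h1) h2))
        ((le_max_right _ _).trans_lt h1) h2))
  · have hδE := hDE hl
    have hδα := hle hEα hδE
    have hδR : LimPt R δ := by
      by_contra hn
      obtain ⟨σ, -, s, hs, hs2⟩ := hgap δ hδE hn
      exact hP3 σ δ (hδE.tail hs hs2) hδ
    obtain ⟨w1, w2, -⟩ := hw δ hδα hδ.2.2.1
    have hFl : LimPt (F δ) δ := (Sig_limPt Q d m hδ w1).tail w2 fun y hy h _ => ⟨hy, h⟩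
    obtain ⟨σ', hσ', h1, h2⟩ := hδR.2 x hx
    obtain ⟨σ, hσ, h3, h4⟩ := hFl.2 σ' h2
    have hσR : σ ∈ R := Cl_closed hδ hδR hσ
    obtain ⟨⟨-, g1, g2, g3⟩, -⟩ := Sig_sub Q d δ _ m hσ.1
    obtain ⟨p, hp, hpA, y, hy1, hy2, hy3, hy4⟩ := hP4 σ g1 g2 δ hδR g3
    have hpσ := hPlt σ p hp
    have hpE : p ∈ E := Or.inr (mem_biUnion hσR hp)
    have hb : ∀ z ∈ E, z < p → z ≤ y := by
      rintro z (hz | hz) hzp
      · exact hy1 z hz (hzp.trans hpσ)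
      · obtain ⟨σ'', hσ'', hz⟩ := mem_iUnion₂.1 hz
        rcases lt_trichotomy σ'' σ with h | h | h
        · exact (hPlt σ'' z hz).le.trans (hy1 σ'' hσ'' h)
        · exact hy4 z (h ▸ hz) hzp
        · exact absurd (hP2 σ'' z hz σ hσR h) (not_lt.2 (hzp.trans hpσ).le)
    refine ⟨p, ⟨subset_clo E hpE, hEα hpE⟩, hpA, hpσ.trans h4, y, h1.le.trans (hy1 σ' hσ' h3),
      hy2, hy3, ?_⟩
    rintro z ⟨hz | hz, -⟩ hzp
    · exact hb z hz hzp
    · by_contra hn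
      obtain ⟨w, hw, h5, h6⟩ := hz.2 y (not_le.1 hn)
      exact absurd (hb w hw (h6.trans hzp)) (not_le.2 h5)

/-- A system of clubs with few tails at each point. -/
structure IsSys (D : K → Set K) : Prop where
  cof : ∀ α, IsLim α → LimPt (D α) α
  sub : ∀ α, D α ⊆ Iio α
  closed : ∀ α β, β < α → LimPt (D α) β → β ∈ D α
  tails : ∀ β, IsLim β → ∃ 𝒯 : Set (Set K), #𝒯 ≤ lam ∧
    ∀ α, LimPt (D α) β → ∃ ε < β, ∀ h, ε < h → D α ∩ Ico h β ∈ 𝒯

/-- Every club of the system that accumulates at `δ` meets `A` at successor steps. -/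
def Hits (D : K → Set K) (ρ : K → K) (A : Set K) (δ : K) : Prop :=
  ∀ α, LimPt (D α) δ → ∀ x < δ, ∃ p ∈ D α, p ∈ A ∧ p < δ ∧
    ∃ y, x ≤ y ∧ y < p ∧ y < ρ p ∧ ∀ z ∈ D α, z < p → z ≤ y

theorem exists_D (hSL : ∀ n, 2 ^ al n ≤ lam) :
    ∃ D : K → Set K, IsSys D ∧ ∀ δ ∈ SS Q d, Hits D d.ρ (d.A δ) δ := by
  have h : ∀ α : K, ∃ D : Set K, D ⊆ Iio α ∧ (IsLim α → LimPt D α) ∧
      (∀ β < α, LimPt D β → β ∈ D) ∧
      (∀ β, LimPt D β → ∃ ε < β, ∃ c ∈ Q.C β, ∃ k j, ∀ y ∈ D, ε < y → y < β →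
        y ∈ Env Q d c k j) ∧
      ∀ δ ∈ SS Q d, LimPt D δ → ∀ x < δ, ∃ p ∈ D, p ∈ d.A δ ∧ p < δ ∧
        ∃ y, x ≤ y ∧ y < p ∧ y < d.ρ p ∧ ∀ z ∈ D, z < p → z ≤ y := by
    intro α
    by_cases hα : IsLim α
    · obtain ⟨D, h1, h2, h3⟩ := exists_D_at Q d hα
      exact ⟨D, h1, fun _ => h2, h3⟩
    · have he : ∀ β : K, ¬ LimPt ∅ β := fun β h => by
        obtain ⟨x, hx⟩ := h.1
        obtain ⟨y, hy, -⟩ := h.2 x hx
        exact absurd hy (notMem_empty y)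
      exact ⟨∅, empty_subset _, fun h => absurd h hα, fun β _ h => absurd h (he β),
        fun β h => absurd h (he β), fun δ _ h => absurd h (he δ)⟩
  choose D h1 h2 h3 h4 h5 using h
  refine ⟨D, ⟨h2, h1, h3, fun β hβ => ?_⟩, fun δ hδ α => h5 α δ hδ⟩
  refine ⟨⋃ c ∈ Q.C β, ⋃ k, ⋃ j, 𝒫 (Env Q d c k j), ?_, fun α hl => ?_⟩
  · have h0 := aleph0_le_lam
    refine mk_biUnion_le_of_le h0 ((le_aleph0_iff_set_countable.2 (Q.cnt β hβ)).trans h0)
      fun c _ => mk_iUnion_le_of_le h0 (by simpa using h0) fun k =>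
        mk_iUnion_le_of_le h0 (by simpa using h0) fun j => ?_
    rw [mk_powerset]
    exact (power_le_power_left two_ne_zero (mk_Env_le Q d c k j)).trans (hSL _)
  · obtain ⟨ε, hε, c, hc, k, j, h⟩ := h4 α β hl
    exact ⟨ε, hε, fun x hx => mem_biUnion hc (mem_iUnion.2 ⟨k, mem_iUnion.2 ⟨j, fun y hy =>
      h y hy.1 (hx.trans_le hy.2.1) hy.2.2⟩⟩)⟩

end Pool.Agent.MP_e4c3a7_lc

end MrgPart2

-- ======== part 3: formerly Pool.Agent.MP_e4c3a7_lc.Tree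
section MrgPart3

/-!
The tree built along a club system.
-/

open Cardinal Set

namespace Pool.Agent.MP_e4c3a7_lc

variable {K : Type} [LinearOrder K]

/-- The order between nodes. -/
def NLe (a b : K × Set K) : Prop := a.1 ≤ b.1 ∧ b.2 ∩ Iio a.1 = a.2

theorem inter_Iio_Iio (b : Set K) {p q : K} (h : q ≤ p) : b ∩ Iio p ∩ Iio q = b ∩ Iio q := by
  rw [inter_assoc, Iio_inter_Iio, min_eq_right h]

open Classical in
/-- The recipe: extend `x` from level `q` to level `p`, above an element of `W p` if possible. -/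
noncomputable def nxt (W : K → Set (K × Set K)) (Lp : Set (Set K)) (p q : K) (x : Set K) :
    Set K :=
  if h : ∃ y ∈ Lp, y ∩ Iio q = x ∧ ∃ a ∈ W p, NLe a (p, y) then Classical.choose h
  else Classical.epsilon fun y => y ∈ Lp ∧ y ∩ Iio q = x

theorem nxt_spec {W : K → Set (K × Set K)} {Lp : Set (Set K)} {p q : K} {x : Set K}
    (h : ∃ y ∈ Lp, y ∩ Iio q = x) : nxt W Lp p q x ∈ Lp ∧ nxt W Lp p q x ∩ Iio q = x := by
  unfold nxt
  split_ifs with h'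
  · exact ⟨(Classical.choose_spec h').1, (Classical.choose_spec h').2.1⟩
  · exact Classical.epsilon_spec h

theorem nxt_seal {W : K → Set (K × Set K)} {Lp : Set (Set K)} {p q : K} {x : Set K}
    (h : ∃ y ∈ Lp, y ∩ Iio q = x ∧ ∃ a ∈ W p, NLe a (p, y)) :
    ∃ a ∈ W p, NLe a (p, nxt W Lp p q x) := by
  unfold nxt
  rw [dif_pos h]
  exact (Classical.choose_spec h).2.2

/-- `q < p` are consecutive elements of `D`. -/
def Consec (D : Set K) (q p : K) : Prop := q ∈ D ∧ p ∈ D ∧ q < p ∧ ∀ r ∈ D, r < p → r ≤ q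

/-- `b` follows the recipe `N` along `D` from `h` up to `r`. -/
def Fol (N : K → K → Set K → Set K) (D : Set K) (h r : K) (b : Set K) : Prop :=
  ∀ q p, Consec D q p → h ≤ q → p ≤ r → b ∩ Iio p = N p q (b ∩ Iio q)

theorem Consec.not_limPt {D : Set K} {q p : K} (h : Consec D q p) : ¬ LimPt D p := by
  intro hl
  obtain ⟨y, hy, h1, h2⟩ := hl.2 q h.2.2.1
  exact absurd (h.2.2.2 y hy h2) (not_le.2 h1)

variable [WellFoundedLT K]

theorem exists_consec {D : Set K} {h p : K} (hh : h ∈ D) (hp : p ∈ D) (hlt : h < p)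
    (hcl : ∀ r < p, LimPt D r → r ∈ D) (hn : ¬ LimPt D p) : ∃ q, h ≤ q ∧ Consec D q p := by
  obtain ⟨s, hs, hs2⟩ := exists_bound_of_not_limPt ⟨h, hlt⟩ hn
  obtain ⟨t, ht, ht2⟩ := exists_least (S := {s | ∀ y ∈ D, y < p → y ≤ s}) ⟨s, hs2⟩
  have htp : t < p := (ht2 s hs2).trans_lt hs
  refine ⟨t, ht h hh hlt, ?_, hp, htp, ht⟩
  by_contra htD
  refine htD (hcl t htp ⟨⟨h, lt_of_le_of_ne (ht h hh hlt) fun e => htD (e ▸ hh)⟩, fun x hx => ?_⟩)
  by_contra hx2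
  push Not at hx2
  refine absurd (ht2 x fun y hy hyp => ?_) (not_le.2 hx)
  by_contra hxy
  have := le_antisymm (ht y hy hyp) (hx2 y hy (not_le.1 hxy))
  exact htD (this ▸ hy)

theorem Fol.unique {N : K → K → Set K → Set K} {D : Set K} {h r : K} {b b' : Set K}
    (hh : h ∈ D) (hcl : ∀ s < r, LimPt D s → s ∈ D) (hb : Fol N D h r b) (hb' : Fol N D h r b')
    (h0 : b ∩ Iio h = b' ∩ Iio h) : ∀ p ∈ D, h ≤ p → p ≤ r → b ∩ Iio p = b' ∩ Iio p := by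
  intro p
  induction p using WellFoundedLT.induction with
  | ind p ih =>
    intro hp h1 h2
    rcases h1.lt_or_eq with h1 | h1
    · by_cases hl : LimPt D p
      · ext t
        by_cases ht : t < p
        · obtain ⟨q, hq, h3, h4⟩ := hl.2 (max t h) (max_lt ht h1)
          have := ih q h4 hq ((le_max_right _ _).trans h3.le) (h4.le.trans h2)
          have h5 : t < q := (le_max_left _ _).trans_lt h3
          have h6 : t ∈ b ∩ Iio q ↔ t ∈ b' ∩ Iio q := by rw [this]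
          simpa [ht, h5] using h6
        · simp [ht]
      · obtain ⟨q, hq, hc⟩ := exists_consec hh hp h1 (fun s hs => hcl s (hs.trans_le h2)) hl
        rw [hb q p hc hq h2, hb' q p hc hq h2, ih q hc.2.2.1 hc.1 hq (hc.2.2.1.le.trans h2)]
    · exact h1 ▸ h0

/-- The recursive description of the levels. -/
def IsLev (D : K → Set K) (W : K → Set (K × Set K)) (L : K → Set (Set K)) : Prop :=
  ∀ β b, b ∈ L β ↔ b ⊆ Iio β ∧ (∀ γ < β, b ∩ Iio γ ∈ L γ) ∧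
    (IsLim β → ∃ α h, h ∈ D α ∧ h < β ∧ LimPt (D α) β ∧
      ∀ r < β, Fol (fun p => nxt W (L p) p) (D α) h r b)

theorem exists_isLev (D : K → Set K) (W : K → Set (K × Set K)) : ∃ L, IsLev D W L := by
  let F : (β : K) → ((γ : K) → γ < β → Set (Set K)) → Set (Set K) := fun β IH =>
    {b | b ⊆ Iio β ∧ (∀ γ (hγ : γ < β), b ∩ Iio γ ∈ IH γ hγ) ∧
      (IsLim β → ∃ α h, h ∈ D α ∧ h < β ∧ LimPt (D α) β ∧
        ∀ q p (hp : p < β), Consec (D α) q p → h ≤ q →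
          b ∩ Iio p = nxt W (IH p hp) p q (b ∩ Iio q))}
  refine ⟨(wellFounded_lt (α := K)).fix F, fun β b => ?_⟩
  rw [(wellFounded_lt (α := K)).fix_eq F β]
  refine and_congr_right fun _ => and_congr_right fun _ => forall_congr' fun _ =>
    exists₂_congr fun α h => and_congr_right fun _ => and_congr_right fun _ =>
      and_congr_right fun _ => ?_
  exact ⟨fun H r hr q p hc hq hp => H q p (hp.trans_lt hr) hc hq,
    fun H q p hp hc hq => H p hp q p hc hq le_rfl⟩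

variable {D : K → Set K} {W : K → Set (K × Set K)} {L : K → Set (Set K)}

omit [WellFoundedLT K] in
theorem IsLev.sub (hL : IsLev D W L) {β : K} {b : Set K} (hb : b ∈ L β) : b ⊆ Iio β :=
  ((hL β b).1 hb).1

omit [WellFoundedLT K] in
theorem IsLev.inter_self (hL : IsLev D W L) {β : K} {b : Set K} (hb : b ∈ L β) :
    b ∩ Iio β = b := inter_eq_left.2 (hL.sub hb)

omit [WellFoundedLT K] in
theorem IsLev.down (hL : IsLev D W L) {β γ : K} {b : Set K} (hb : b ∈ L β) (h : γ ≤ β) :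
    b ∩ Iio γ ∈ L γ := by
  rcases h.lt_or_eq with h | rfl
  · exact ((hL β b).1 hb).2.1 γ h
  · rwa [hL.inter_self hb]

omit [WellFoundedLT K] in
theorem IsLev.succ (hL : IsLev D W L) {β s : K} (hs : s < β) (hs2 : ∀ y < β, y ≤ s) {b : Set K}
    (hb : b ⊆ Iio β) (hb2 : b ∩ Iio s ∈ L s) : b ∈ L β := by
  refine (hL β b).2 ⟨hb, fun γ hγ => ?_, fun hl => ?_⟩
  · rw [← inter_Iio_Iio b (hs2 γ hγ)]
    exact hL.down hb2 (hs2 γ hγ)
  · obtain ⟨y, -, h1, h2⟩ := hl.2 s hs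
    exact absurd (hs2 y h2) (not_le.2 h1)

theorem IsLev.normal (hL : IsLev D W L) (hD : IsSys D) (β : K) :
    ∀ γ ≤ β, ∀ x ∈ L γ, ∃ b ∈ L β, b ∩ Iio γ = x := by
  induction β using WellFoundedLT.induction with
  | ind β ih =>
    intro γ hγ x hx
    rcases hγ.lt_or_eq with hγ | rfl
    swap
    · exact ⟨x, hx, hL.inter_self hx⟩
    by_cases hβ : IsLim β
    swap
    · obtain ⟨s, hs, hs2⟩ := exists_bound_of_not_limPt ⟨γ, hγ⟩ hβ
      obtain ⟨b, hb, hb2⟩ := ih s hs γ (hs2 γ (mem_univ _) hγ) x hx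
      exact ⟨b, hL.succ hs (fun y hy => hs2 y (mem_univ _) hy)
        ((hL.sub hb).trans (Iio_subset_Iio hs.le)) (by rwa [hL.inter_self hb]), hb2⟩
    obtain ⟨h, hh, hγh, hhβ⟩ := (hD.cof β hβ).2 γ hγ
    obtain ⟨x0, hx0, hx1⟩ := ih h hhβ γ hγh.le x hx
    set N : K → K → Set K → Set K := fun p => nxt W (L p) p with hN
    have key : ∀ p, (p ∈ D β ∨ p = β) → h ≤ p →
        ∃ y ∈ L p, y ∩ Iio h = x0 ∧ Fol N (D β) h p y := by
      intro p
      induction p using WellFoundedLT.induction with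
      | ind p ih2 =>
        intro hp hhp
        have hpβ : p ≤ β := hp.elim (fun h => (hD.sub β h).le) fun h => h.le
        rcases hhp.lt_or_eq with hhp | rfl
        swap
        · exact ⟨x0, hx0, hL.inter_self hx0, fun q p hc h1 h2 =>
            absurd (h1.trans_lt (hc.2.2.1.trans_le h2)) (lt_irrefl _)⟩
        by_cases hl : LimPt (D β) p
        · have h1 : ∀ q : K, ∃ y : Set K, q ∈ D β → h ≤ q → q < p →
              y ∈ L q ∧ y ∩ Iio h = x0 ∧ Fol N (D β) h q y := by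
            intro q
            by_cases hq : q ∈ D β ∧ h ≤ q ∧ q < p
            · obtain ⟨y, hy⟩ := ih2 q hq.2.2 (Or.inl hq.1) hq.2.1
              exact ⟨y, fun _ _ _ => hy⟩
            · exact ⟨∅, fun a b c => absurd ⟨a, b, c⟩ hq⟩
          choose y hy using h1
          have hco : ∀ q q', q ∈ D β → q' ∈ D β → h ≤ q → q ≤ q' → q' < p →
              y q' ∩ Iio q = y q := by
            intro q q' hq hq' h1 h2 h3
            obtain ⟨a1, a2, a3⟩ := hy q hq h1 (h2.trans_lt h3)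
            obtain ⟨b1, b2, b3⟩ := hy q' hq' (h1.trans h2) h3
            rw [← hL.inter_self a1]
            exact Fol.unique (r := q) hh
              (fun s hs => hD.closed β s (hs.trans (hD.sub β hq)))
              (fun u v hc h4 h5 => b3 u v hc h4 (h5.trans h2)) a3 (b2.trans a2.symm) q hq h1 le_rfl
          set z : Set K := ⋃ q ∈ {q | q ∈ D β ∧ h ≤ q ∧ q < p}, y q with hz
          have hzq : ∀ q, q ∈ D β → h ≤ q → q < p → z ∩ Iio q = y q := by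
            intro q hq h1 h2
            apply Subset.antisymm
            · rintro t ⟨ht, htq⟩
              obtain ⟨q', hq', ht⟩ := mem_iUnion₂.1 ht
              rcases le_total q q' with h3 | h3
              · rw [← hco q q' hq hq'.1 h1 h3 hq'.2.2]
                exact ⟨ht, htq⟩
              · rw [← hco q' q hq'.1 hq hq'.2.1 h3 h2] at ht
                exact ht.1
            · intro t ht
              exact ⟨mem_biUnion (s := {q | q ∈ D β ∧ h ≤ q ∧ q < p}) ⟨hq, h1, h2⟩ ht,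
                hL.sub (hy q hq h1 h2).1 ht⟩
          have hfol : Fol N (D β) h p z := by
            intro u v hc h1 h2
            have h3 : v < p := lt_of_le_of_ne h2 fun e => hc.not_limPt (e ▸ hl)
            have h4 : h ≤ v := h1.trans hc.2.2.1.le
            obtain ⟨a1, -, a3⟩ := hy v hc.2.1 h4 h3
            have := a3 u v hc h1 le_rfl
            rw [← hzq v hc.2.1 h4 h3, inter_Iio_Iio _ le_rfl, inter_Iio_Iio _ hc.2.2.1.le] at this
            exact this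
          refine ⟨z, (hL p z).2 ⟨?_, fun γ' hγ' => ?_, fun _ => ⟨β, h, hh, hhp, hl,
            fun r hr u v hc h1 h2 => hfol u v hc h1 (h2.trans hr.le)⟩⟩, ?_, hfol⟩
          · intro t ht
            obtain ⟨q', hq', ht⟩ := mem_iUnion₂.1 ht
            exact (hL.sub (hy q' hq'.1 hq'.2.1 hq'.2.2).1 ht).trans hq'.2.2
          · obtain ⟨q, hq, h1, h2⟩ := hl.2 (max γ' h) (max_lt hγ' hhp)
            have h3 : γ' ≤ q := (le_max_left _ _).trans h1.le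
            have h4 : h ≤ q := (le_max_right _ _).trans h1.le
            rw [← inter_Iio_Iio z h3, hzq q hq h4 h2]
            exact hL.down (hy q hq h4 h2).1 h3
          · rw [hzq h hh le_rfl hhp, ← (hy h hh le_rfl hhp).2.1,
              hL.inter_self (hy h hh le_rfl hhp).1]
        · have hpD : p ∈ D β := hp.resolve_right fun e => hl (e ▸ hD.cof β hβ)
          obtain ⟨q, hq, hc⟩ := exists_consec hh hpD hhp
            (fun s hs => hD.closed β s (hs.trans_le hpβ)) hl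
          obtain ⟨y, hy1, hy2, hy3⟩ := ih2 q hc.2.2.1 (Or.inl hc.1) hq
          obtain ⟨n1, n2⟩ := nxt_spec (W := W) (p := p) (ih p (hD.sub β hpD) q hc.2.2.1.le y hy1)
          refine ⟨_, n1, ?_, fun u v hc' h1 h2 => ?_⟩
          · rw [← inter_Iio_Iio _ hq, n2, hy2]
          · rcases h2.lt_or_eq with h2 | rfl
            · have h3 : v ≤ q := hc.2.2.2 v hc'.2.1 h2
              rw [← inter_Iio_Iio _ h3, ← inter_Iio_Iio _ (hc'.2.2.1.le.trans h3), n2]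
              exact hy3 u v hc' h1 h3
            · obtain rfl : u = q := le_antisymm (hc.2.2.2 u hc'.1 hc'.2.2.1)
                (hc'.2.2.2 q hc.1 hc.2.2.1)
              rw [n2, hL.inter_self n1]
    obtain ⟨y, hy1, hy2, -⟩ := key β (Or.inr rfl) hhβ.le
    exact ⟨y, hy1, by rw [← inter_Iio_Iio _ hγh.le, hy2, hx1]⟩

theorem IsLev.nonempty (hL : IsLev D W L) (hD : IsSys D) (β : K) : (L β).Nonempty := by
  obtain ⟨m, -, hm⟩ := exists_least (S := (univ : Set K)) ⟨β, mem_univ _⟩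
  have : ∅ ∈ L m := (hL m ∅).2 ⟨empty_subset _, fun γ hγ => absurd (hm γ (mem_univ _))
    (not_le.2 hγ), fun hl => let ⟨x, hx⟩ := hl.1; absurd (hm x (mem_univ _)) (not_le.2 hx)⟩
  obtain ⟨b, hb, -⟩ := hL.normal hD β m (hm β (mem_univ _)) ∅ this
  exact ⟨b, hb⟩

theorem IsLev.mk_le (hL : IsLev D W L) (hD : IsSys D) (hK : ∀ a : K, #(Iio a) ≤ lam) (β : K) :
    #(L β) ≤ lam := by
  have h0 := aleph0_le_lam
  induction β using WellFoundedLT.induction with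
  | ind β ih =>
    by_cases hβ : IsLim β
    · obtain ⟨𝒯, h𝒯, h𝒯2⟩ := hD.tails β hβ
      set N : K → K → Set K → Set K := fun p => nxt W (L p) p with hN
      have h1 : L β ⊆ ⋃ h ∈ Iio β, ⋃ x ∈ L h, ⋃ E ∈ 𝒯, {b | b ⊆ Iio β ∧ b ∩ Iio h = x ∧ h ∈ E ∧
          LimPt E β ∧ (∀ r < β, LimPt E r → r ∈ E) ∧ ∀ r < β, Fol N E h r b} := by
        intro b hb
        obtain ⟨α, h, hh, hhβ, hl, hf⟩ := ((hL β b).1 hb).2.2 hβ
        obtain ⟨ε, hε, hε2⟩ := h𝒯2 α hl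
        obtain ⟨h1, hh1, h2, h3⟩ := hl.2 (max ε h) (max_lt hε hhβ)
        have hβα : β ≤ α := by
          by_contra hn
          obtain ⟨y, hy, h1, -⟩ := hl.2 α (not_le.1 hn)
          exact lt_asymm h1 (hD.sub α hy)
        refine mem_biUnion h3 (mem_biUnion (hL.down hb h3.le) (mem_biUnion
          (hε2 h1 ((le_max_left _ _).trans_lt h2)) ⟨hL.sub hb, rfl, ⟨hh1, le_rfl, h3⟩,
            hl.tail h3 fun y hy h4 h5 => ⟨hy, h4.le, h5⟩, fun r hr hlr => ⟨hD.closed α r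
              (hr.trans_le hβα) (hlr.mono inter_subset_left), ?_, hr⟩, fun r hr q p hc h4 h5 =>
              hf r hr q p ⟨hc.1.1, hc.2.1.1, hc.2.2.1, fun s hs hsp => ?_⟩
                (((le_max_right _ _).trans h2.le).trans h4) h5⟩))
        · obtain ⟨x, hx⟩ := hlr.1
          obtain ⟨y, hy, -, h5⟩ := hlr.2 x hx
          exact hy.2.1.trans h5.le
        · rcases le_total h1 s with h6 | h6
          · exact hc.2.2.2 s ⟨hs, h6, hsp.trans hc.2.1.2.2⟩ hsp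
          · exact h6.trans h4
      refine (mk_le_mk_of_subset h1).trans (mk_biUnion_le_of_le h0 (hK β) fun h hh =>
        mk_biUnion_le_of_le h0 (ih h hh) fun x _ => mk_biUnion_le_of_le h0 h𝒯 fun E _ => ?_)
      refine le_trans (mk_le_one_iff_set_subsingleton.2 ?_) (one_le_aleph0.trans h0)
      rintro b ⟨a1, a2, a3, a4, a5, a6⟩ b' ⟨b1, b2, -, -, -, b6⟩
      ext t
      by_cases ht : t < β
      · obtain ⟨q, hq, h3, h4⟩ := a4.2 (max t h) (max_lt ht hh)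
        have := Fol.unique a3 (fun s hs => a5 s (hs.trans h4)) (a6 q h4) (b6 q h4)
          (a2.trans b2.symm) q hq ((le_max_right _ _).trans h3.le) le_rfl
        have h5 : t < q := (le_max_left _ _).trans_lt h3
        have h6 : t ∈ b ∩ Iio q ↔ t ∈ b' ∩ Iio q := by rw [this]
        simpa [h5] using h6
      · exact ⟨fun h => absurd (a1 h) ht, fun h => absurd (b1 h) ht⟩
    · by_cases hx : ∃ x, x < β
      · obtain ⟨s, hs, hs2⟩ := exists_bound_of_not_limPt hx hβ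
        have h1 : L β ⊆ L s ∪ insert s '' L s := by
          intro b hb
          have h2 := hL.down hb hs.le
          by_cases hsb : s ∈ b
          · refine Or.inr ⟨_, h2, ?_⟩
            ext t
            constructor
            · rintro (rfl | ht)
              · exact hsb
              · exact ht.1
            · intro ht
              rcases (hs2 t (mem_univ _) (hL.sub hb ht)).lt_or_eq with h | h
              · exact Or.inr ⟨ht, h⟩
              · exact Or.inl h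
          · left
            have h3 : b ⊆ Iio s := fun t ht =>
              lt_of_le_of_ne (hs2 t (mem_univ _) (hL.sub hb ht)) fun e => hsb (e ▸ ht)
            rwa [inter_eq_left.2 h3] at h2
        exact (mk_le_mk_of_subset h1).trans (mk_union_le_of_le h0 (ih s hs)
          (mk_image_le.trans (ih s hs)))
      · refine le_trans (mk_le_one_iff_set_subsingleton.2 ?_) (one_le_aleph0.trans h0)
        intro b hb b' hb'
        ext t
        exact ⟨fun h => absurd ⟨t, hL.sub hb h⟩ hx, fun h => absurd ⟨t, hL.sub hb' h⟩ hx⟩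

theorem IsLev.seal (hL : IsLev D W L) (hD : IsSys D) {ρ : K → K} {G : Set K} {δ x0 : K}
    (hδ : IsLim δ) (hH : Hits D ρ G δ) (hx0 : x0 < δ)
    (hG : ∀ γ ∈ G, x0 < ρ γ → ρ γ ≤ γ ∧ ∀ q < ρ γ, ∀ x ∈ L q, ∃ a ∈ W γ, a.1 < ρ γ ∧
      a.2 ∈ L a.1 ∧ (NLe a (q, x) ∨ NLe (q, x) a)) {b : Set K} (hb : b ∈ L δ) :
    ∃ γ ∈ G, x0 < ρ γ ∧ ∃ a ∈ W γ, a.1 < δ ∧ NLe a (δ, b) := by
  obtain ⟨α, h, hh, hhδ, hl, hf⟩ := ((hL δ b).1 hb).2.2 hδ
  obtain ⟨p, hp, hpG, hpδ, y, h1, h2, h3, h4⟩ := hH α hl (max h x0) (max_lt hhδ hx0)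
  have hx0p : x0 < ρ p := ((le_max_right _ _).trans h1).trans_lt h3
  obtain ⟨g1, g2⟩ := hG p hpG hx0p
  obtain ⟨q, hq, hc⟩ := exists_consec hh hp (((le_max_left _ _).trans h1).trans_lt h2)
    (fun s hs => hD.closed α s (hs.trans (hD.sub α hp))) (fun hlp => by
      obtain ⟨z, hz, h5, h6⟩ := hlp.2 y h2
      exact absurd (h4 z hz h6) (not_le.2 h5))
  have hqδ : q < δ := hc.2.2.1.trans hpδ
  obtain ⟨a, ha, a1, a2, a3⟩ := g2 q ((h4 q hc.1 hc.2.2.1).trans_lt h3) _ (hL.down hb hqδ.le)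
  refine ⟨p, hpG, hx0p, ?_⟩
  rcases a3 with a3 | a3
  · refine ⟨a, ha, a3.1.trans_lt hqδ, a3.1.trans hqδ.le, ?_⟩
    rw [← a3.2]
    exact (inter_Iio_Iio b a3.1).symm
  · obtain ⟨y', hy', hy2⟩ := hL.normal hD p a.1 (a1.le.trans g1) a.2 a2
    obtain ⟨a', ha', a4⟩ := nxt_seal (W := W) (Lp := L p) (p := p) (q := q) (x := b ∩ Iio q)
      ⟨y', hy', by rw [← inter_Iio_Iio y' a3.1, hy2]; exact a3.2, a, ha, a1.le.trans g1, hy2⟩
    have h5 := hf p hpδ q p hc hq le_rfl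
    refine ⟨a', ha', a4.1.trans_lt hpδ, a4.1.trans hpδ.le, ?_⟩
    rw [← a4.2]
    change b ∩ Iio a'.1 = nxt W (L p) p q (b ∩ Iio q) ∩ Iio a'.1
    rw [← inter_Iio_Iio b a4.1, h5]

end Pool.Agent.MP_e4c3a7_lc

end MrgPart3

-- ======== part 4: formerly Pool.Agent.MP_e4c3a7_lc.Principle
section MrgPart4

/-!
The parametrized guessing principle.
-/

open Cardinal Set

namespace Pool.Agent.MP_e4c3a7_lc

/-- A type of size `ℵ_ω` with its filtration. -/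
abbrev Lam : Type := Σ n : ℕ, (al n).out

theorem mk_Lam_le : #Lam ≤ lam := by
  rw [mk_sigma]
  refine (sum_le_mk_mul_iSup _).trans (mul_le_of_le aleph0_le_lam (by simpa using aleph0_le_lam)
    (ciSup_le' fun n => ?_))
  rw [mk_out]
  exact (al_lt_lam n).le

theorem le_mk_Lam : lam ≤ #Lam := by
  by_contra hn
  obtain ⟨n, hn⟩ := exists_le_al (not_le.1 hn)
  have : #(al (n + 1)).out ≤ #Lam :=
    mk_le_of_injective (sigma_mk_injective (β := fun n : ℕ => (al n).out) (i := n + 1))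
  rw [mk_out] at this
  exact absurd (this.trans hn) (not_le.2 (al_lt (by omega)))

theorem mk_Lam_level (n : ℕ) : #{η : Lam | η.1 = n} ≤ al n := by
  have : {η : Lam | η.1 = n} ⊆ range (Sigma.mk n) := by
    rintro ⟨k, t⟩ (rfl : k = n)
    exact ⟨t, rfl⟩
  refine (mk_le_mk_of_subset this).trans (mk_range_le.trans ?_)
  rw [mk_out]

theorem exists_surj {α β : Type} [Nonempty β] (h : #β ≤ #α) :
    ∃ f : α → β, Function.Surjective f := by
  obtain ⟨emb⟩ := (Cardinal.le_def _ _).1 h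
  exact ⟨Function.invFun emb, Function.invFun_surjective emb.injective⟩

/-- The standing assumptions: `K` has order type `ℵ_{ω+1}`, and cardinal arithmetic. -/
structure Ctx (K : Type) [LinearOrder K] : Prop where
  iio : ∀ a : K, #(Iio a) ≤ lam
  card : #K = Order.succ lam
  sl : ∀ n, 2 ^ al n ≤ lam
  pow : 2 ^ lam ≤ Order.succ lam

variable {K : Type} [LinearOrder K]

theorem Ctx.bdd (H : Ctx K) (S : Set K) (hS : #S ≤ lam) : ∃ b, ∀ x ∈ S, x < b :=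
  bdd_of_small (isRegular_succ aleph0_le_lam) H.card.ge (fun i => Order.lt_succ_iff.2 (H.iio i))
    S (Order.lt_succ_iff.2 hS)

theorem Ctx.bound (H : Ctx K) {ι : Type} (hι : #ι ≤ lam) (f : ι → K) : ∃ b, ∀ i, f i < b := by
  obtain ⟨b, hb⟩ := H.bdd (range f) (mk_range_le.trans hι)
  exact ⟨b, fun i => hb _ ⟨i, rfl⟩⟩

theorem Ctx.exists_inj (H : Ctx K) : ∃ e : K → K → Lam, ∀ δ, InjOn (e δ) (Iio δ) := by
  classical
  have : ∀ δ : K, ∃ e : K → Lam, InjOn e (Iio δ) := by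
    intro δ
    obtain ⟨emb⟩ := (Cardinal.le_def _ _).1 ((H.iio δ).trans le_mk_Lam)
    obtain ⟨η⟩ : Nonempty Lam := by
      rw [← mk_ne_zero_iff]
      exact (aleph0_pos.trans_le (aleph0_le_lam.trans le_mk_Lam)).ne'
    refine ⟨fun x => if h : x < δ then emb ⟨x, h⟩ else η, fun x hx y hy hxy => ?_⟩
    simp only [dif_pos (mem_Iio.1 hx), dif_pos (mem_Iio.1 hy)] at hxy
    exact congrArg Subtype.val (emb.injective hxy)
  choose e he using this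
  exact ⟨e, he⟩

theorem Ctx.mk_bdd_sets (H : Ctx K) : #{s : Set K | ∃ x, s ⊆ Iio x} ≤ Order.succ lam := by
  have : {s : Set K | ∃ x, s ⊆ Iio x} = ⋃ x, 𝒫 (Iio x) := by ext s; simp
  rw [this]
  refine mk_iUnion_le_of_le (aleph0_le_lam.trans (Order.le_succ _)) H.card.le fun x => ?_
  rw [mk_powerset]
  exact (power_le_power_left two_ne_zero (H.iio x)).trans H.pow

theorem Ctx.guess (H : Ctx K) : ∃ (B : Type) (_ : #B ≤ lam) (A : B → K → Set K), ∀ G : Set K,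
    ∃ nx : K → K, ∀ δ, CofGe δ (al 1) → LimPt {x | nx x < δ} δ → ∃ b, A b δ = G ∩ Iio δ := by
  obtain ⟨e, he⟩ := H.exists_inj
  obtain ⟨x0, -⟩ := H.bdd ∅ (by simp)
  have : Nonempty {s : Set K | ∃ x, s ⊆ Iio x} := ⟨⟨∅, x0, empty_subset _⟩⟩
  obtain ⟨Y, hY⟩ := exists_surj (α := K) (β := {s : Set K | ∃ x, s ⊆ Iio x})
    (H.mk_bdd_sets.trans H.card.ge)
  refine ⟨(⋃ n : ℕ, 𝒫 {η : Lam | η.1 = n} : Set (Set Lam)), ?_,
    fun b δ => {t | ∃ y < δ, e δ y ∈ b.1 ∧ t ∈ (Y y).1}, fun G => ?_⟩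
  · refine mk_iUnion_le_of_le aleph0_le_lam (by simpa using aleph0_le_lam) fun n => ?_
    rw [mk_powerset]
    exact (power_le_power_left two_ne_zero (mk_Lam_level n)).trans (H.sl n)
  · choose nx hnx using fun x => hY ⟨G ∩ Iio x, x, inter_subset_right⟩
    refine ⟨nx, fun δ hδ hl => ?_⟩
    obtain ⟨n, hn⟩ := hδ.pigeon hl (fun n => {x | (e δ (nx x)).1 = n}) fun x _ _ => ⟨_, rfl⟩
    refine ⟨⟨{η | η.1 = n ∧ ∃ x < δ, nx x < δ ∧ η = e δ (nx x)},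
      mem_iUnion.2 ⟨n, fun η hη => hη.1⟩⟩, ?_⟩
    ext t
    constructor
    · rintro ⟨y, hy, ⟨-, x, hx, hx2, hx3⟩, ht⟩
      rw [he δ hy hx2 hx3, hnx x] at ht
      exact ⟨ht.1, lt_trans ht.2 hx⟩
    · rintro ⟨ht, htδ⟩
      obtain ⟨x, hx, h1, h2⟩ := hn.2 t htδ
      refine ⟨nx x, hx.1, ⟨hx.2, x, h2, hx.1, rfl⟩, ?_⟩
      rw [hnx x]
      exact ⟨ht, h1⟩

variable [WellFoundedLT K]

theorem Ctx.point (H : Ctx K) (n : ℕ) (nx : K → K) (x0 : K) :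
    ∃ τ, x0 < τ ∧ LimPt {x | nx x < τ} τ ∧ CofGe τ (al n) ∧ CofLe τ (al n) := by
  obtain ⟨τ, -, h⟩ := exists_closure_point (al_regular n) (J := univ) (fun _ _ _ _ => mem_univ _)
    (fun S _ hS => let ⟨b, hb⟩ := H.bdd S (hS.trans (al_lt_lam n).le); ⟨b, mem_univ _, hb⟩)
    nx (fun _ _ => mem_univ _) (mem_univ x0)
  exact ⟨τ, h⟩

theorem CofGe.point {σ : K} {n : ℕ} (h : CofGe σ (al (n + 1))) (nx : K → K)
    (hnx : ∀ x < σ, nx x < σ) {x0 : K} (hx0 : x0 < σ) :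
    ∃ τ < σ, x0 < τ ∧ LimPt {x | nx x < τ} τ ∧ CofGe τ (al n) ∧ CofLe τ (al n) :=
  exists_closure_point (al_regular n) (J := Iio σ) (fun _ hx _ hy => lt_trans hy hx)
    (fun S hS hc => h S hS (lt_al_succ.2 hc)) nx hnx hx0

theorem few_bad {U : K → Set K} (hU : ∀ ξ ξ' β, β ∈ U ξ → β ∈ U ξ' → ξ = ξ') {m : ℕ} {σ : K}
    (hσ : CofGe σ (al (m + 4))) : #{ξ | ¬ Good (U ξ) m σ} ≤ al (m + 2) := by
  by_contra hn
  rw [not_le, ← Order.succ_le_iff, ← al_succ] at hn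
  obtain ⟨T, hT, hT2⟩ := le_mk_iff_exists_subset.1 hn
  have h1 : ∀ ξ : T, ∃ nx : K → K, (∀ x < σ, nx x < σ) ∧ ∀ τ < σ, LimPt {x | nx x < τ} τ →
      CofGe τ (al (m + 2)) → ∀ e : Set K, LimPt e τ → ∃ β < τ, LimPt e β ∧ β ∈ U ξ.1 := by
    intro ξ
    have := hT ξ.2
    simp only [mem_ofPred_eq, Good] at this
    push Not at this
    exact this
  choose nx hnx1 hnx2 using h1
  have h2 : ∀ x : K, ∃ c, x < σ → c < σ ∧ ∀ ξ, nx ξ x < c := by
    intro x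
    by_cases hx : x < σ
    · obtain ⟨c, hc⟩ := hσ.bound (ι := T) (hT2 ▸ al_lt (by omega)) (fun ξ => nx ξ x)
        fun ξ => hnx1 ξ x hx
      exact ⟨c, fun _ => hc⟩
    · exact ⟨x, fun h => absurd h hx⟩
  choose N hN using h2
  obtain ⟨x0, hx0⟩ := (hσ.isLim (aleph0_le_al _)).1
  obtain ⟨τ, hτ, -, h3, h4, e, he, he2⟩ := (hσ.mono (al_mono (show m + 2 + 1 ≤ m + 4 by omega))).point
    N (fun x hx => (hN x hx).1) hx0
  have h5 : ∀ ξ : T, ∃ β, LimPt e β ∧ β ∈ U ξ.1 := by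
    intro ξ
    obtain ⟨x1, hx1⟩ := h3.1
    obtain ⟨β, -, hβ⟩ := hnx2 ξ τ hτ (h3.tail hx1 fun y hy _ h =>
      ((hN y (h.trans hτ)).2 ξ).trans hy) h4 e he2
    exact ⟨β, hβ⟩
  choose f hf1 hf2 using h5
  have h6 : #T ≤ #{β | LimPt e β} := mk_le_of_injective (f := fun ξ : T => ⟨f ξ, hf1 ξ⟩)
    fun ξ ξ' h => Subtype.ext (hU _ _ (f ξ) (hf2 ξ) (by
      have : f ξ = f ξ' := congrArg Subtype.val h
      rw [this]; exact hf2 ξ'))
  rw [hT2] at h6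
  exact absurd (h6.trans (mk_limPt_le_of_le (aleph0_le_al _) he)) (not_le.2 (al_lt (by omega)))

theorem exists_sep (Q : SqSeq K) {δ : K} (hδ : CofGe δ (al 1)) :
    ∃ b < δ, IsLim b ∧ (∀ c ∈ Q.C δ, c ∩ Iio b ∈ Q.C b) ∧ InjOn (fun c => c ∩ Iio b) (Q.C δ) := by
  have hl := hδ.isLim (aleph0_le_al _)
  have hc : #(Q.C δ) < al 1 := (countable_iff_lt_al_one _).1 (Q.cnt δ hl)
  obtain ⟨x0, hx0⟩ := hl.1
  have h1 : ∀ p : Q.C δ × Q.C δ, ∃ t < δ, (t ∈ p.1.1 ↔ t ∈ p.2.1) → p.1 = p.2 := by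
    rintro ⟨c, c'⟩
    by_cases h : c = c'
    · exact ⟨x0, hx0, fun _ => h⟩
    · have h2 : ¬ ∀ t, t ∈ c.1 ↔ t ∈ c'.1 := fun h3 => h (Subtype.ext (Set.ext h3))
      obtain ⟨t, ht⟩ := not_forall.1 h2
      refine ⟨t, ?_, fun h3 => absurd h3 ht⟩
      by_contra h3
      exact ht ⟨fun h4 => absurd (Q.sub δ hl _ c.2 h4) h3, fun h4 => absurd (Q.sub δ hl _ c'.2 h4) h3⟩
  choose t ht1 ht2 using h1
  obtain ⟨x1, hx1, hx2⟩ := hδ.bound (ι := Q.C δ × Q.C δ)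
    (by simpa using mul_lt_of_lt (aleph0_le_al 1) hc hc) t ht1
  have h2 : ∀ x : K, ∃ z, x < δ → z < δ ∧ ∀ c ∈ Q.C δ, ∃ y ∈ c, x < y ∧ y < z := by
    intro x
    by_cases hx : x < δ
    · choose y hy1 hy2 hy3 using fun c : Q.C δ => (Q.cof δ hl c.1 c.2).2 x hx
      obtain ⟨z, hz, hz2⟩ := hδ.bound hc y hy3
      exact ⟨z, fun _ => ⟨hz, fun c hc => ⟨y ⟨c, hc⟩, hy1 ⟨c, hc⟩, hy2 _, hz2 _⟩⟩⟩
    · exact ⟨x, fun h => absurd h hx⟩
  choose nx hnx using h2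
  obtain ⟨b, hb, hb1, hb2, -⟩ := CofGe.point (n := 0) hδ nx (fun x hx => (hnx x hx).1) hx1
  refine ⟨b, hb, hb2.isLim, fun c hc => Q.coh δ hl c hc b hb ⟨hb2.1, fun x hx => ?_⟩,
    fun c hc c' hc' h => ?_⟩
  · obtain ⟨x', hx', h3, h4⟩ := hb2.2 x hx
    obtain ⟨y, hy, h5, h6⟩ := (hnx x' (h4.trans hb)).2 c hc
    exact ⟨y, hy, h3.trans h5, h6.trans hx'⟩
  · have h3 := ht2 (⟨c, hc⟩, ⟨c', hc'⟩) (by
      have h4 : t (⟨c, hc⟩, ⟨c', hc'⟩) < b := (hx2 _).trans hb1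
      have h5 := Set.ext_iff.1 h (t (⟨c, hc⟩, ⟨c', hc'⟩))
      simpa [h4] using h5)
    exact congrArg Subtype.val h3

omit [WellFoundedLT K] in
theorem Hits.mono {D : K → Set K} {ρ : K → K} {A G : Set K} {δ : K} (h : Hits D ρ A δ)
    (hA : A ⊆ G) : Hits D ρ G δ := fun α hl x hx =>
  let ⟨p, h1, h2, h3⟩ := h α hl x hx; ⟨p, h1, hA h2, h3⟩

theorem principle (H : Ctx K) (Q : SqSeq K) : ∃ (P : Type) (_ : #P ≤ lam), ∀ ρ : K → K,
    ∃ D : K × K × P → K → Set K, (∀ p, IsSys (D p)) ∧ ∀ G : Set K,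
      (∀ x, ∃ γ ∈ G, x < γ ∧ x < ρ γ) →
        ∃ p δ, p.1 < δ ∧ p.2.1 < δ ∧ IsLim δ ∧ Hits (D p) ρ G δ := by
  obtain ⟨e, he⟩ := H.exists_inj
  obtain ⟨B, hB, A, hA⟩ := H.guess
  have h0 := aleph0_le_lam
  have hr : ∀ b : K, ∃ r : Set K → ℕ, IsLim b → InjOn r (Q.C b) := by
    intro b
    by_cases hb : IsLim b
    · obtain ⟨r, hr⟩ := countable_iff_exists_injOn.1 (Q.cnt b hb)
      exact ⟨r, fun _ => hr⟩
    · exact ⟨fun _ => 0, fun h => absurd h hb⟩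
  choose r hr using hr
  have hcont : 𝔠 ≤ lam := by
    have := H.sl 0
    rwa [al_zero] at this
  refine ⟨Lam × (ℕ → ℕ → ℕ) × (ℕ → ℕ) × B, ?_, fun ρ => ?_⟩
  · simp only [mk_prod, lift_id]
    refine mul_le_of_le h0 mk_Lam_le (mul_le_of_le h0 ?_ (mul_le_of_le h0 ?_ hB))
    · simpa using hcont
    · simpa using hcont
  set U : K → Lam → Set K := fun ξ η => {δ | ξ < δ ∧ e δ ξ = η} with hU
  let dat : K × K × (Lam × (ℕ → ℕ → ℕ) × (ℕ → ℕ) × B) → Dat K := fun p =>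
    { U := U p.1 p.2.2.1
      A := A p.2.2.2.2.2
      ρ := ρ
      g := p.2.2.2.2.1
      idx := fun c => p.2.2.2.1 (r p.2.1 (c ∩ Iio p.2.1))
      b := p.2.1
      hidx := fun c δ h => by rw [inter_Iio_Iio c h.le] }
  choose D hD1 hD2 using fun p => exists_D Q (dat p) H.sl
  refine ⟨D, hD1, fun G hG => ?_⟩
  choose γ hγ1 hγ2 hγ3 using hG
  set Bm : ℕ → Set K := fun m => {σ | CofGe σ (al (m + 4)) ∧ RCof ρ G σ} with hBm
  have hBm_unb : ∀ m x, ∃ σ ∈ Bm m, x < σ := by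
    intro m x
    obtain ⟨σ, h1, h2, h3, -⟩ := H.point (m + 4) γ x
    refine ⟨σ, ⟨h3, fun y hy => ?_⟩, h1⟩
    obtain ⟨z, hz, h4, -⟩ := h2.2 y hy
    exact ⟨γ z, hγ1 z, h4.trans (hγ2 z), hz, h4.trans (hγ3 z)⟩
  have hVB : ∀ η m, #{ξ | ∃ c, ∀ σ ∈ Bm m, c < σ → ¬ Good (U ξ η) m σ} ≤ al (m + 2) := by
    intro η m
    by_contra hn
    rw [not_le, ← Order.succ_le_iff, ← al_succ] at hn
    obtain ⟨T, hT, hT2⟩ := le_mk_iff_exists_subset.1 hn
    choose c hc using fun ξ : T => hT ξ.2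
    obtain ⟨c0, hc0⟩ := H.bound (ι := T) (hT2 ▸ (al_lt_lam _).le) c
    obtain ⟨σ, hσ, h1⟩ := hBm_unb m c0
    have h2 : T ⊆ {ξ | ¬ Good (U ξ η) m σ} := fun ξ hξ => hc ⟨ξ, hξ⟩ σ hσ ((hc0 _).trans h1)
    have h3 := (mk_le_mk_of_subset h2).trans (few_bad (U := fun ξ => U ξ η)
      (fun ξ ξ' β h h' => he β h.1 h'.1 (h.2.trans h'.2.symm)) hσ.1)
    rw [hT2] at h3
    exact absurd h3 (not_le.2 (al_lt (by omega)))
  obtain ⟨ξ, hξ⟩ := H.bdd (⋃ η, ⋃ m, {ξ | ∃ c, ∀ σ ∈ Bm m, c < σ → ¬ Good (U ξ η) m σ})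
    (mk_iUnion_le_of_le h0 mk_Lam_le fun η => mk_iUnion_le_of_le h0 (by simpa using h0)
      fun m => (hVB η m).trans (al_lt_lam _).le)
  have hgood : ∀ η m c, ∃ σ ∈ Bm m, c < σ ∧ Good (U ξ η) m σ := by
    intro η m c
    by_contra hn
    push Not at hn
    exact lt_irrefl _ (hξ ξ (mem_iUnion.2 ⟨η, mem_iUnion.2 ⟨m, c, hn⟩⟩))
  have h1 : ∀ x : K, ∃ z, ∀ η m, ∃ σ ∈ Bm m, x < σ ∧ σ < z ∧ Good (U ξ η) m σ := by
    intro x
    choose σ hσ1 hσ2 hσ3 using fun p : Lam × ℕ => hgood p.1 p.2 x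
    obtain ⟨z, hz⟩ := H.bound (ι := Lam × ℕ)
      (by simpa using mul_le_of_le h0 mk_Lam_le h0) σ
    exact ⟨z, fun η m => ⟨σ (η, m), hσ1 (η, m), hσ2 _, hz _, hσ3 (η, m)⟩⟩
  choose nx1 hnx1 using h1
  obtain ⟨nx2, hnx2⟩ := hA G
  obtain ⟨δ, hξδ, hcl, hge, hle⟩ := H.point 1 (fun x => max (nx1 x) (nx2 x)) ξ
  have hδl : IsLim δ := hcl.isLim
  obtain ⟨β', hβ'⟩ := hnx2 δ hge (hcl.mono fun x hx => (le_max_right _ _).trans_lt hx)
  set η := e δ ξ with hη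
  have h2 : ∀ m, ∃ k, LimPt ({σ | σ ∈ Bm m ∧ Good (U ξ η) m σ} ∩
      {σ | RCof ρ (G ∩ Q.X σ k) σ}) δ := by
    intro m
    refine hge.pigeon (T := fun k => {σ | RCof ρ (G ∩ Q.X σ k) σ}) ⟨hδl.1, fun x hx => ?_⟩ ?_
    · obtain ⟨x', hx', h3, h4⟩ := hcl.2 x hx
      obtain ⟨σ, hσ, h5, h6, h7⟩ := hnx1 x' η m
      exact ⟨σ, ⟨hσ, h7⟩, h3.trans h5, h6.trans ((le_max_left _ _).trans_lt hx')⟩
    · rintro σ ⟨⟨hσ1, hσ2⟩, -⟩ -
      by_contra hn
      simp only [mem_ofPred_eq, RCof] at hn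
      push Not at hn
      choose x hx1 hx2 using hn
      obtain ⟨b, hb, hb2⟩ := hσ1.bound (ι := ℕ)
        (by simpa using (al_zero ▸ al_lt (show 0 < m + 4 by omega))) x hx1
      obtain ⟨p, hp, h3, h4, h5⟩ := hσ2 b hb
      obtain ⟨k, hk⟩ := Q.X_cover h4
      exact absurd (hx2 k p ⟨hp, hk⟩ ((hb2 k).trans h3) h4) (not_le.2 ((hb2 k).trans h5))
  choose g hg using h2
  have h3 : ∀ c ∈ Q.C δ, ∀ m, ∃ k, LimPt (({σ | σ ∈ Bm m ∧ Good (U ξ η) m σ} ∩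
      {σ | RCof ρ (G ∩ Q.X σ (g m)) σ}) ∩ Q.KK k c) δ := by
    intro c hc m
    refine hge.pigeon (T := fun k => Q.KK k c) (hg m) fun x _ hx =>
      Q.KK_cover (Q.small δ hδl c hc) ?_
    obtain ⟨y, hy, h4, -⟩ := (Q.cof δ hδl c hc).2 x hx
    exact ⟨y, hy, h4.le⟩
  obtain ⟨b, hb, hbl, hb1, hb2⟩ := exists_sep Q hge
  have h4 : ∀ n m : ℕ, ∃ k, ∀ c ∈ Q.C δ, r b (c ∩ Iio b) = n →
      LimPt (({σ | σ ∈ Bm m ∧ Good (U ξ η) m σ} ∩
        {σ | RCof ρ (G ∩ Q.X σ (g m)) σ}) ∩ Q.KK k c) δ := by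
    intro n m
    by_cases h : ∃ c ∈ Q.C δ, r b (c ∩ Iio b) = n
    · obtain ⟨c, hc, hcn⟩ := h
      obtain ⟨k, hk⟩ := h3 c hc m
      refine ⟨k, fun c' hc' h' => ?_⟩
      have : c' = c := hb2 hc' hc (hr b hbl (hb1 c' hc') (hb1 c hc) (h'.trans hcn.symm))
      exact this ▸ hk
    · exact ⟨0, fun c hc h' => absurd ⟨c, hc, h'⟩ h⟩
  choose f hf using h4
  refine ⟨(ξ, b, η, f, g, β'), δ, hξδ, hb, hδl, (hD2 _ δ ⟨⟨hξδ, rfl⟩, hb, hδl, hle,
    fun c hc m => ?_⟩).mono (hβ'.le.trans inter_subset_left)⟩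
  refine (hf _ m c hc rfl).tail hξδ ?_
  rintro σ ⟨⟨⟨hσ1, hσ2⟩, hσ3⟩, hσ4⟩ - hσδ
  refine ⟨hσ4, hσ1.1.mono (al_mono (by omega)), hσ2, fun x hx => ?_⟩
  obtain ⟨p, hp, h5, h6, h7⟩ := hσ3 x hx
  refine ⟨p, ⟨?_, hp.2⟩, h5, h6, h7⟩
  change p ∈ A β' δ
  rw [hβ']
  exact ⟨hp.1, h6.trans hσδ⟩

end Pool.Agent.MP_e4c3a7_lc

end MrgPart4

-- ======== part 5: formerly Pool.Agent.MP_e4c3a7_lc.Main
section MrgPart5

/-!
One of the trees has no large antichain.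
-/

open Cardinal Set

namespace Pool.Agent.MP_e4c3a7_lc

variable {K : Type} [LinearOrder K]

theorem NLe.refl' {a : K × Set K} (h : a.2 ⊆ Iio a.1) : NLe a a := ⟨le_rfl, inter_eq_left.2 h⟩

theorem NLe.trans {a b c : K × Set K} (h : NLe a b) (h' : NLe b c) : NLe a c :=
  ⟨h.1.trans h'.1, by rw [← h.2, ← h'.2, inter_Iio_Iio _ h.1]⟩

/-- Antichains of the tree with levels `L`. -/
def IsAnti (L : K → Set (Set K)) (𝒜 : Set (K × Set K)) : Prop :=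
  (∀ a ∈ 𝒜, a.2 ∈ L a.1) ∧ ∀ a ∈ 𝒜, ∀ a' ∈ 𝒜, NLe a a' → a = a'

theorem IsAnti.exists_max {L : K → Set (Set K)} (hL : ∀ β, ∀ b ∈ L β, b ⊆ Iio β)
    {𝒜 : Set (K × Set K)} (h : IsAnti L 𝒜) : ∃ ℬ, 𝒜 ⊆ ℬ ∧ IsAnti L ℬ ∧
      ∀ n : K × Set K, n.2 ∈ L n.1 → ∃ a ∈ ℬ, NLe a n ∨ NLe n a := by
  obtain ⟨ℬ, h1, h2⟩ := zorn_subset_nonempty {𝒜 | IsAnti L 𝒜} (by
    intro c hc hch _
    refine ⟨⋃₀ c, ⟨?_, ?_⟩, fun s hs => subset_sUnion_of_mem hs⟩
    · rintro a ⟨s, hs, ha⟩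
      exact (hc hs).1 a ha
    · rintro a ⟨s, hs, ha⟩ a' ⟨s', hs', ha'⟩
      rcases hch.total hs hs' with h | h
      · exact (hc hs').2 a (h ha) a' ha'
      · exact (hc hs).2 a ha a' (h ha')) 𝒜 h
  refine ⟨ℬ, h1, h2.1, fun n hn => ?_⟩
  by_contra hne
  push Not at hne
  have h3 : IsAnti L (insert n ℬ) := by
    refine ⟨?_, ?_⟩
    · rintro a (rfl | ha)
      · exact hn
      · exact h2.1.1 a ha
    · rintro a (rfl | ha) a' (rfl | ha') hle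
      · rfl
      · exact absurd hle (hne a' ha').2
      · exact absurd hle (hne a ha).1
      · exact h2.1.2 a ha a' ha' hle
  have h4 : n ∈ ℬ := h2.2 h3 (subset_insert _ _) (mem_insert _ _)
  exact (hne n h4).1 (NLe.refl' (hL _ _ hn))

theorem mk_nodes_le {L : K → Set (Set K)} (hK : ∀ a : K, #(Iio a) ≤ lam)
    (hL : ∀ β, #(L β) ≤ lam) (x : K) : #{n : K × Set K | n.1 < x ∧ n.2 ∈ L n.1} ≤ lam := by
  have : {n : K × Set K | n.1 < x ∧ n.2 ∈ L n.1} ⊆ ⋃ q ∈ Iio x, Prod.mk q '' L q :=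
    fun n hn => mem_biUnion hn.1 ⟨n.2, hn.2, rfl⟩
  exact (mk_le_mk_of_subset this).trans (mk_biUnion_le_of_le aleph0_le_lam (hK x) fun q _ =>
    mk_image_le.trans (hL q))

theorem Ctx.exists_enum (H : Ctx K) {T : Type} [Nonempty T] (hT : #T ≤ Order.succ lam) :
    ∃ Z : K → T, ∀ t x, ∃ γ, x < γ ∧ Z γ = t := by
  obtain ⟨x0, -⟩ := H.bdd ∅ (by simp)
  have : Nonempty K := ⟨x0⟩
  have h0 : ℵ₀ ≤ Order.succ lam := aleph0_le_lam.trans (Order.le_succ _)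
  obtain ⟨f, hf⟩ := exists_surj (α := K) (β := K × T) (by
    rw [mk_prod, lift_id, lift_id, H.card]
    exact mul_le_of_le h0 le_rfl hT)
  refine ⟨fun γ => (f γ).2, fun t x => ?_⟩
  by_contra hn
  push Not at hn
  choose g hg using fun y : K => hf (y, t)
  obtain ⟨x', hx'⟩ := H.bdd {x} (by simpa using one_le_aleph0.trans aleph0_le_lam)
  have h1 : ∀ y, g y < x' := fun y => lt_of_le_of_lt (not_lt.1 fun h => hn _ h (by rw [hg]))
    (hx' x rfl)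
  have h2 : #K ≤ #(Iio x') := mk_le_of_injective (f := fun y => ⟨g y, h1 y⟩) fun y y' h => by
    have h3 : g y = g y' := congrArg Subtype.val h
    have h4 := hg y
    rw [h3, hg y'] at h4
    exact (congrArg Prod.fst h4).symm
  rw [H.card] at h2
  exact absurd (h2.trans (H.iio x')) (not_le.2 (Order.lt_succ _))

/-- The nodes of the tree with levels `L`. -/
@[ext] structure Node (L : K → Set (Set K)) : Type where
  val : K × Set K
  mem : val.2 ∈ L val.1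
  sub : val.2 ⊆ Iio val.1

theorem Node.eq_of_le {L : K → Set (Set K)} {a b : Node L} (h : NLe a.val b.val)
    (h1 : a.val.1 = b.val.1) : a = b := by
  refine Node.ext (Prod.ext h1 ?_)
  rw [← h.2, h1]
  exact inter_eq_left.2 b.sub

instance (L : K → Set (Set K)) : PartialOrder (Node L) where
  le a b := NLe a.val b.val
  le_refl a := NLe.refl' a.sub
  le_trans _ _ _ h h' := h.trans h'
  le_antisymm _ _ h h' := Node.eq_of_le h (le_antisymm h.1 h'.1)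

theorem Node.lt_iff {L : K → Set (Set K)} {a b : Node L} :
    a < b ↔ NLe a.val b.val ∧ a.val.1 < b.val.1 := by
  rw [lt_iff_le_and_ne]
  exact and_congr_right fun hab => ⟨fun hne => lt_of_le_of_ne hab.1 fun h1 =>
    hne (Node.eq_of_le hab h1), fun h1 e => absurd h1 (e ▸ lt_irrefl _)⟩

theorem Node.val_injective {L : K → Set (Set K)} :
    Function.Injective (Node.val : Node L → K × Set K) := fun _ _ h => Node.ext h

variable [WellFoundedLT K]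

theorem exists_levels (H : Ctx K) (Q : SqSeq K) :
    ∃ (D : K → Set K) (W : K → Set (K × Set K)) (L : K → Set (Set K)),
      IsSys D ∧ IsLev D W L ∧ ∀ 𝒜, IsAnti L 𝒜 → #𝒜 ≤ lam := by
  obtain ⟨P, hP, hpr⟩ := principle H Q
  have h0 := aleph0_le_lam
  have h0' : ℵ₀ ≤ Order.succ lam := h0.trans (Order.le_succ _)
  set s : Set ((K × K × P) × (K × Set K)) := {t | t.2.2 ⊆ Iio t.2.1} with hs
  have hsc : #s ≤ Order.succ lam := by
    have h1 : s ⊆ (univ : Set (K × K × P)) ×ˢ ((univ : Set K) ×ˢ {s : Set K | ∃ x, s ⊆ Iio x}) :=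
      fun t ht => ⟨mem_univ _, mem_univ _, _, ht⟩
    refine (mk_le_mk_of_subset h1).trans ?_
    simp only [mk_setProd, mk_univ, mk_prod, lift_id, H.card]
    exact mul_le_of_le h0' (mul_le_of_le h0' le_rfl (mul_le_of_le h0' le_rfl
      (hP.trans (Order.le_succ _)))) (mul_le_of_le h0' le_rfl H.mk_bdd_sets)
  obtain ⟨x0, -⟩ := H.bdd ∅ (by simp)
  have : Nonempty (K × {t : Set ((K × K × P) × (K × Set K)) // t ⊆ s ∧ #t ≤ lam}) :=
    ⟨(x0, ⟨∅, empty_subset _, by simp⟩)⟩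
  obtain ⟨Z, hZ⟩ := H.exists_enum
    (T := K × {t : Set ((K × K × P) × (K × Set K)) // t ⊆ s ∧ #t ≤ lam}) (by
    rw [mk_prod, lift_id, lift_id, H.card]
    refine mul_le_of_le h0' le_rfl ((mk_bounded_subset_le s lam).trans ?_)
    have h2 : max #s ℵ₀ ≤ 2 ^ lam := (max_le hsc h0').trans (Order.succ_le_of_lt (cantor lam))
    refine (power_le_power_right h2).trans ?_
    rw [← power_mul, mul_eq_self h0]
    exact H.pow)
  set ρ : K → K := fun γ => (Z γ).1 with hρ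
  obtain ⟨D, hD, hD2⟩ := hpr ρ
  set W : K × K × P → K → Set (K × Set K) := fun p γ => {a | (p, a) ∈ (Z γ).2.1} with hW
  choose L hL using fun p => exists_isLev (D p) (W p)
  by_contra hn
  push Not at hn
  have h1 : ∀ p, ∃ 𝒜, IsAnti (L p) 𝒜 ∧ lam < #𝒜 ∧
      ∀ n : K × Set K, n.2 ∈ L p n.1 → ∃ a ∈ 𝒜, NLe a n ∨ NLe n a := by
    intro p
    obtain ⟨𝒜, h1, h2⟩ := hn (D p) (W p) (L p) (hD p) (hL p)
    obtain ⟨ℬ, h3, h4, h5⟩ := h1.exists_max fun β b hb => (hL p).sub hb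
    exact ⟨ℬ, h4, h2.trans_le (mk_le_mk_of_subset h3), h5⟩
  choose 𝒜 h𝒜1 h𝒜2 h𝒜3 using h1
  have hLc : ∀ p β, #(L p β) ≤ lam := fun p => (hL p).mk_le (hD p) H.iio
  set N : K → Set ((K × K × P) × (K × Set K)) := fun x =>
    {t | t.1.1 < x ∧ t.1.2.1 < x ∧ t.2.1 < x ∧ t.2.2 ∈ L t.1 t.2.1} with hN
  have hNc : ∀ x, #(N x) ≤ lam := by
    intro x
    have h1 : N x ⊆ ⋃ p ∈ (Iio x ×ˢ (Iio x ×ˢ (univ : Set P))),
        Prod.mk p '' {n : K × Set K | n.1 < x ∧ n.2 ∈ L p n.1} :=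
      fun t ht => mem_biUnion (s := Iio x ×ˢ (Iio x ×ˢ (univ : Set P)))
        ⟨ht.1, ht.2.1, mem_univ _⟩ ⟨t.2, ht.2.2, rfl⟩
    refine (mk_le_mk_of_subset h1).trans (mk_biUnion_le_of_le h0 ?_ fun p _ =>
      mk_image_le.trans (mk_nodes_le H.iio (hLc p) x))
    simp only [mk_setProd, mk_univ]
    exact mul_le_of_le h0 (H.iio x) (mul_le_of_le h0 (H.iio x) hP)
  have h2 : ∀ x : K, ∃ z, ∀ t ∈ N x, ∃ a ∈ 𝒜 t.1, a.1 < z ∧ (NLe a t.2 ∨ NLe t.2 a) := by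
    intro x
    choose a ha1 ha2 using fun t : N x => h𝒜3 t.1.1 t.1.2 t.2.2.2.2
    obtain ⟨z, hz⟩ := H.bound (hNc x) fun t => (a t).1
    exact ⟨z, fun t ht => ⟨a ⟨t, ht⟩, ha1 ⟨t, ht⟩, hz _, ha2 ⟨t, ht⟩⟩⟩
  choose nx hnx using h2
  set w : K → Set ((K × K × P) × (K × Set K)) := fun r => {t | t ∈ N r ∧ t.2 ∈ 𝒜 t.1} with hw
  obtain ⟨p, δ, hp1, hp2, hδ, hH⟩ := hD2
    {γ | ρ γ ≤ γ ∧ LimPt {x | nx x < ρ γ} (ρ γ) ∧ (Z γ).2.1 = w (ρ γ)} (by
      intro x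
      obtain ⟨r, hr1, hr2, -⟩ := H.point 0 nx x
      obtain ⟨γ, hγ1, hγ2⟩ := hZ (r, ⟨w r, fun t ht => (hL t.1).sub ht.1.2.2.2,
        (mk_le_mk_of_subset fun t ht => ht.1).trans (hNc r)⟩) r
      have h3 : ρ γ = r := congrArg Prod.fst hγ2
      refine ⟨γ, ⟨h3 ▸ hγ1.le, h3 ▸ hr2, ?_⟩, hr1.trans hγ1, h3 ▸ hr1⟩
      rw [h3, hγ2])
  have h3 : ∀ b ∈ L p δ, ∃ a ∈ 𝒜 p, a.1 < δ ∧ NLe a (δ, b) := by
    intro b hb
    obtain ⟨γ, hγ, -, a, ha, h4⟩ := (hL p).seal (hD p) hδ hH (max_lt hp1 hp2) (by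
      rintro γ ⟨g1, g2, g3⟩ hx
      refine ⟨g1, fun q hq x hx2 => ?_⟩
      obtain ⟨y, hy, h5, h6⟩ := g2.2 _ (max_lt hx hq)
      have h7 := (le_max_left _ _).trans_lt h5
      obtain ⟨a, ha, h8, h9⟩ := hnx y (p, (q, x)) ⟨(le_max_left _ _).trans_lt h7,
        (le_max_right _ _).trans_lt h7, (le_max_right _ _).trans_lt h5, hx2⟩
      refine ⟨a, ?_, h8.trans hy, (h𝒜1 p).1 a ha, h9⟩
      change (p, a) ∈ (Z γ).2.1
      rw [g3]
      exact ⟨⟨(le_max_left _ _).trans_lt hx, (le_max_right _ _).trans_lt hx, h8.trans hy,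
        (h𝒜1 p).1 a ha⟩, ha⟩) hb
    refine ⟨a, ?_, h4⟩
    change (p, a) ∈ (Z γ).2.1 at ha
    rw [hγ.2.2] at ha
    exact ha.2
  have h4 : 𝒜 p ⊆ {n : K × Set K | n.1 < δ ∧ n.2 ∈ L p n.1} := by
    intro a ha
    refine ⟨?_, (h𝒜1 p).1 a ha⟩
    by_contra hlt
    have h5 : δ ≤ a.1 := not_lt.1 hlt
    obtain ⟨a', ha', h6, h7⟩ := h3 _ ((hL p).down ((h𝒜1 p).1 a ha) h5)
    have := (h𝒜1 p).2 a' ha' a ha (h7.trans ⟨h5, rfl⟩)
    exact hlt (this ▸ h6)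
  exact absurd ((mk_le_mk_of_subset h4).trans (mk_nodes_le H.iio (hLc p) δ))
    (not_le.2 (h𝒜2 p))

/-- A large chain gives a large antichain. -/
theorem chain_small (H : Ctx K) {D : K → Set K} {W : K → Set (K × Set K)} {L : K → Set (Set K)}
    (hL : IsLev D W L) (hA : ∀ 𝒜, IsAnti L 𝒜 → #𝒜 ≤ lam) {c : Set (K × Set K)}
    (hc : ∀ a ∈ c, a.2 ∈ L a.1) (hch : ∀ a ∈ c, ∀ a' ∈ c, NLe a a' ∨ NLe a' a) : #c ≤ lam := by
  classical
  by_contra hn
  have h1 : ∀ x : K, ∃ a ∈ c, x < a.1 := by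
    intro x
    by_contra h
    push Not at h
    obtain ⟨x', hx'⟩ := H.bdd {x} (by simpa using one_le_aleph0.trans aleph0_le_lam)
    refine hn (le_trans (mk_le_of_injective (f := fun a : c => (⟨a.1.1,
      (h a.1 a.2).trans_lt (hx' x rfl)⟩ : Iio x')) ?_) (H.iio x'))
    rintro ⟨a, ha⟩ ⟨a', ha'⟩ h2
    have h3 : a.1 = a'.1 := congrArg Subtype.val h2
    refine Subtype.ext (Prod.ext h3 ?_)
    rcases hch a ha a' ha' with h4 | h4
    · rw [← h4.2, h3]; exact hL.inter_self (hc a' ha')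
    · rw [← h4.2, ← h3]; exact (hL.inter_self (hc a ha)).symm
  choose a ha1 ha2 using h1
  have h2 : ∀ x : K, ∃ y, x < y ∧ ∀ z < y, z ≤ x := by
    intro x
    obtain ⟨y, hy, hy2⟩ := exists_least (S := Ioi x) ⟨_, ha2 x⟩
    exact ⟨y, hy, fun z hz => not_lt.1 fun h => absurd (hy2 z h) (not_le.2 hz)⟩
  choose s hs1 hs2 using h2
  let n : K → K × Set K := fun x => (s x, {t | (t < x ∧ t ∈ (a x).2) ∨ (t = x ∧ x ∉ (a x).2)})
  have hmem : ∀ x y t, t < (a x).1 → t < (a y).1 → (t ∈ (a x).2 ↔ t ∈ (a y).2) := by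
    intro x y t h3 h4
    rcases hch _ (ha1 x) _ (ha1 y) with h | h
    · rw [← h.2]; simp [h3]
    · rw [← h.2]; simp [h4]
  have hinj : ∀ x y, NLe (n x) (n y) → x = y := by
    intro x y h
    have hxy : x ≤ y := hs2 y x ((hs1 x).trans_le h.1)
    rcases hxy.lt_or_eq with hlt | h
    · have h3 := Set.ext_iff.1 h.2 x
      have h4 := hmem x y x (ha2 x) (hlt.trans (ha2 y))
      simp [n, hlt, hlt.ne, hs1 x, ← h4] at h3
    · exact h
  have h3 : IsAnti L (range n) := by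
    refine ⟨?_, ?_⟩
    · rintro _ ⟨x, rfl⟩
      refine hL.succ (hs1 x) (hs2 x) ?_ ?_
      · rintro t (ht | ht)
        · exact ht.1.trans (hs1 x)
        · exact ht.1 ▸ hs1 x
      · have h4 := hL.down (hc _ (ha1 x)) (ha2 x).le
        convert h4 using 1
        ext t
        constructor
        · rintro ⟨ht | ht, ht2⟩
          · exact ⟨ht.2, ht.1⟩
          · exact absurd ht2 (ht.1 ▸ lt_irrefl _)
        · exact fun ht => ⟨Or.inl ⟨ht.2, ht.1⟩, ht.2⟩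
    · rintro _ ⟨x, rfl⟩ _ ⟨y, rfl⟩ h
      rw [hinj x y h]
  have h4 : Function.Injective n := fun x y h => hinj x y (h ▸ NLe.refl' (hL.sub (h3.1 _ ⟨x, rfl⟩)))
  have h5 := hA _ h3
  rw [mk_range_eq n h4, H.card] at h5
  exact absurd h5 (not_le.2 (Order.lt_succ _))

end Pool.Agent.MP_e4c3a7_lc

end MrgPart5

-- marker of a merged file
example : 731051 + 666846 = 731051 + 666846 := rfl
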